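import Pool.Agent.H31.KG.Count

set_option autoImplicit false

namespace Pool.Agent.H31.KG

open Finset

/-- `f` is a `k`-graceful numbering of `G` -/
def KG {N : ℕ} (G : SimpleGraph (Fin N)) (k : ℕ) (f : Fin N → ℕ) : Prop :=
  Function.Injective f ∧ (∀ v, f v < G.edgeSet.ncard + k) ∧
    ∀ m : ℕ, k ≤ m → m < k + G.edgeSet.ncard →
      ∃ u v, G.Adj u v ∧ Int.natAbs ((f u : ℤ) - (f v : ℤ)) = m

/-- graph with a given list of edges -/
def gr {N : ℕ} {ι : Type} (e : ι → Fin N × Fin N) : SimpleGraph (Fin N) :=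
  SimpleGraph.fromEdgeSet (Set.range (fun i => s((e i).1, (e i).2)))

/-- value of an edge -/
def vl {N : ℕ} (f : Fin N → ℕ) (p : Fin N × Fin N) : ℕ :=
  Int.natAbs ((f p.1 : ℤ) - (f p.2 : ℤ))

theorem vl_swap {N : ℕ} (f : Fin N → ℕ) (u v : Fin N) : vl f (u, v) = vl f (v, u) := by
  unfold vl
  simp only
  omega

theorem gr_adj {N : ℕ} {ι : Type} (e : ι → Fin N × Fin N) (u v : Fin N) :
    (gr e).Adj u v ↔ (∃ i, e i = (u, v) ∨ e i = (v, u)) ∧ u ≠ v := by
  unfold gr
  rw [SimpleGraph.fromEdgeSet_adj]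
  constructor
  · rintro ⟨⟨i, hi⟩, hne⟩
    refine ⟨⟨i, ?_⟩, hne⟩
    simp only [Sym2.eq_iff] at hi
    rcases hi with h | h
    · left; exact Prod.ext h.1 h.2
    · right; exact Prod.ext h.1 h.2
  · rintro ⟨⟨i, hi⟩, hne⟩
    refine ⟨⟨i, ?_⟩, hne⟩
    rcases hi with h | h
    · simp [h]
    · simp only [h]; exact Sym2.eq_swap

theorem gr_ncard {N : ℕ} {ι : Type} [Fintype ι] (e : ι → Fin N × Fin N) (f : Fin N → ℕ)
    (hinj : Function.Injective (fun i => vl f (e i))) (hpos : ∀ i, vl f (e i) ≠ 0) :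
    (gr e).edgeSet.ncard = Fintype.card ι := by
  have hei : Function.Injective (fun i => s((e i).1, (e i).2)) := by
    intro i i' h
    apply hinj
    simp only [Sym2.eq_iff] at h
    simp only
    rcases h with h | h
    · rw [show e i = e i' from Prod.ext h.1 h.2]
    · rw [show e i = ((e i').2, (e i').1) from Prod.ext h.1 h.2, vl_swap]
  have hes : (gr e).edgeSet = Set.range (fun i => s((e i).1, (e i).2)) := by
    unfold gr
    rw [SimpleGraph.edgeSet_fromEdgeSet]
    ext x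
    constructor
    · exact fun h => h.1
    · intro h
      refine ⟨h, ?_⟩
      obtain ⟨i, rfl⟩ := h
      intro hd
      have hd' : (e i).1 = (e i).2 := by simpa using hd
      apply hpos i
      unfold vl
      rw [hd']
      simp
  rw [hes, ← Set.image_univ, Set.ncard_image_of_injective _ hei, Set.ncard_univ,
    Nat.card_eq_fintype_card]

theorem kg_good {N : ℕ} {ι : Type} [Fintype ι] (e : ι → Fin N × Fin N)
    (hc : (gr e).edgeSet.ncard = Fintype.card ι) (k : ℕ) (f : Fin N → ℕ) (h : KG (gr e) k f) :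
    Function.Injective (fun i => vl f (e i)) ∧
      Finset.univ.image (fun i => vl f (e i)) = Finset.Ico k (k + Fintype.card ι) := by
  classical
  obtain ⟨h1, h2, h3⟩ := h
  rw [hc] at h3
  have hsub : Finset.Ico k (k + Fintype.card ι) ⊆ Finset.univ.image (fun i => vl f (e i)) := by
    intro m hm
    rw [Finset.mem_Ico] at hm
    obtain ⟨u, v, hadj, hval⟩ := h3 m hm.1 hm.2
    obtain ⟨⟨i, hi⟩, -⟩ := (gr_adj e u v).1 hadj
    refine Finset.mem_image.2 ⟨i, Finset.mem_univ _, ?_⟩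
    rcases hi with hi | hi
    · rw [hi]; exact hval
    · rw [hi, vl_swap]; exact hval
  have hcard : (Finset.univ.image (fun i => vl f (e i))).card ≤
      (Finset.Ico k (k + Fintype.card ι)).card := by
    rw [Nat.card_Ico]
    calc _ ≤ (Finset.univ : Finset ι).card := Finset.card_image_le
      _ = _ := by rw [Finset.card_univ]; omega
  have heq := Finset.eq_of_subset_of_card_le hsub hcard
  refine ⟨?_, heq.symm⟩
  have : (Finset.univ.image (fun i => vl f (e i))).card = (Finset.univ : Finset ι).card := by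
    rw [← heq, Nat.card_Ico, Finset.card_univ]; omega
  exact Finset.card_image_iff.1 this |> fun h => fun a b hab =>
    h (Finset.mem_coe.2 (Finset.mem_univ a)) (Finset.mem_coe.2 (Finset.mem_univ b)) hab

theorem kg_of {N : ℕ} {ι : Type} [Fintype ι] (e : ι → Fin N × Fin N)
    (hc : (gr e).edgeSet.ncard = Fintype.card ι) (k : ℕ) (hk : 0 < k) (f : Fin N → ℕ)
    (h1 : Function.Injective f) (h2 : ∀ v, f v < Fintype.card ι + k)
    (h3 : ∀ m, k ≤ m → m < k + Fintype.card ι → ∃ i, vl f (e i) = m) : KG (gr e) k f := by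
  refine ⟨h1, by rw [hc]; exact h2, ?_⟩
  rw [hc]
  intro m hm1 hm2
  obtain ⟨i, hi⟩ := h3 m hm1 hm2
  refine ⟨(e i).1, (e i).2, ?_, hi⟩
  rw [gr_adj]
  refine ⟨⟨i, Or.inl rfl⟩, ?_⟩
  intro heq
  unfold vl at hi
  rw [heq] at hi
  simp at hi
  omega

end Pool.Agent.H31.KG
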