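import Mathlib

set_option autoImplicit false
set_option linter.unusedSectionVars false

namespace Pool.Agent.H31.KG

open Finset

variable {D : Type*} [Fintype D] [DecidableEq D]

/-- selections whose values enumerate `T` exactly once -/
def Good (w : D → Bool → ℕ) (T : Finset ℕ) (ω : D → Bool) : Prop :=
  Function.Injective (fun d => w d (ω d)) ∧ Finset.univ.image (fun d => w d (ω d)) = T

/-- the rows that really depend on the selection -/
def nondeg (w : D → Bool → ℕ) : Finset D :=
  Finset.univ.filter (fun d => w d false ≠ w d true)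

/-- triangular list of rows -/
def Tri (w : D → Bool → ℕ) (x : D → ℕ) : List D → Prop
  | [] => True
  | d :: l => (w d false ≠ w d true) ∧ (∀ d' ∈ l, ∀ b, w d' b ≠ x d) ∧ Tri w x l

omit [Fintype D] in
theorem tri_nondeg {w : D → Bool → ℕ} {x : D → ℕ} :
    ∀ {l : List D}, Tri w x l → ∀ d ∈ l, w d false ≠ w d true
  | [], _ => by simp
  | e :: l, h => by
      intro d hd
      rcases List.mem_cons.1 hd with rfl | hd
      · exact h.1
      · exact tri_nondeg h.2.2 d hd

theorem tri_nodup {w : D → Bool → ℕ} {ω₀ : D → Bool} :
    ∀ {l : List D}, Tri w (fun d => w d (ω₀ d)) l → l.Nodup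
  | [], _ => List.nodup_nil
  | e :: l, h => by
      refine List.nodup_cons.2 ⟨?_, tri_nodup h.2.2⟩
      intro he
      exact h.2.1 e he (ω₀ e) rfl

theorem tri_inj {w : D → Bool → ℕ} {T : Finset ℕ} {ω₀ : D → Bool} (h₀ : Good w T ω₀) :
    ∀ {l : List D}, Tri w (fun d => w d (ω₀ d)) l →
      ∀ (ω ω' : D → Bool), Good w T ω → Good w T ω' → (∀ d, d ∉ l → ω d = ω' d) → ω = ω'
  | [], _ => by
      intro ω ω' _ _ h
      funext d
      exact h d (by simp)
  | d :: l, ht => by
      intro ω ω' hω hω' hag
      have key : ω d = ω' d := by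
        have hxT : w d (ω₀ d) ∈ T := by
          rw [← h₀.2]; exact Finset.mem_image_of_mem _ (Finset.mem_univ d)
        have hx1 := hxT
        rw [← hω.2] at hx1
        have hx2 := hxT
        rw [← hω'.2] at hx2
        obtain ⟨d1, -, h1⟩ := Finset.mem_image.1 hx1
        obtain ⟨d2, -, h2⟩ := Finset.mem_image.1 hx2
        have hn1 : d1 ∉ l := fun hm => ht.2.1 d1 hm _ h1
        have hn2 : d2 ∉ l := fun hm => ht.2.1 d2 hm _ h2
        have hnd := ht.1
        by_cases e1 : d1 = d
        · by_cases e2 : d2 = d
          · rw [e1] at h1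
            rw [e2] at h2
            rw [← h2] at h1
            cases hb : ω d <;> cases hb' : ω' d <;> simp_all
          · have hout : d2 ∉ (d :: l) := by
              simp [e2, hn2]
            have := hag d2 hout
            rw [← this] at h2
            exact absurd (hω.1 (a₁ := d1) (a₂ := d2) (by simp only; rw [h1, h2])) (by
              rw [e1]; exact fun h => e2 h.symm)
        · have hout : d1 ∉ (d :: l) := by simp [e1, hn1]
          have h3 := hag d1 hout
          have h4 : w d1 (ω' d1) = w d (ω₀ d) := by rw [← h3]; exact h1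
          have a1 : w d (ω d) ≠ w d (ω₀ d) := by
            intro h
            exact e1 (hω.1 (a₁ := d1) (a₂ := d) (by simp only; rw [h1, h]))
          have a2 : w d (ω' d) ≠ w d (ω₀ d) := by
            intro h
            exact e1 (hω'.1 (a₁ := d1) (a₂ := d) (by simp only; rw [h4, h]))
          cases hb : ω d <;> cases hb' : ω' d <;> cases hb0 : ω₀ d <;> simp_all
      refine tri_inj h₀ ht.2.2 ω ω' hω hω' ?_
      intro d' hd'
      by_cases e : d' = d
      · subst e; exact key
      · exact hag d' (by simp [e, hd'])

theorem tri_exists {w : D → Bool → ℕ} {T : Finset ℕ} {ω₀ : D → Bool} (h₀ : Good w T ω₀) :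
    ∀ n : ℕ, 2 * n ≤ (nondeg w).card + 1 →
      ∃ l : List D, l.length = n ∧ Tri w (fun d => w d (ω₀ d)) l
  | 0, _ => ⟨[], rfl, trivial⟩
  | n + 1, hn => by
      obtain ⟨l, hl, ht⟩ := tri_exists h₀ n (by omega)
      -- values touched by l
      set X : Finset ℕ := l.toFinset.image (fun d => w d false) ∪ l.toFinset.image (fun d => w d true)
        with hX
      have hXc : X.card ≤ 2 * n := by
        have h1 : (l.toFinset.image (fun d => w d false)).card ≤ n :=
          le_trans Finset.card_image_le (le_trans (List.toFinset_card_le l) hl.le)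
        have h2 : (l.toFinset.image (fun d => w d true)).card ≤ n :=
          le_trans Finset.card_image_le (le_trans (List.toFinset_card_le l) hl.le)
        calc X.card ≤ _ := Finset.card_union_le _ _
          _ ≤ 2 * n := by omega
      have hYc : ((nondeg w).image (fun d => w d (ω₀ d))).card = (nondeg w).card :=
        Finset.card_image_of_injective _ h₀.1
      obtain ⟨y, hy, hyX⟩ := Finset.exists_mem_notMem_of_card_lt_card
        (s := X) (t := (nondeg w).image (fun d => w d (ω₀ d))) (by omega)
      obtain ⟨d, hd, rfl⟩ := Finset.mem_image.1 hy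
      refine ⟨d :: l, by simp [hl], ?_, ?_, ht⟩
      · exact (Finset.mem_filter.1 hd).2
      · intro d' hd' b hb
        apply hyX
        rw [hX, Finset.mem_union]
        cases b
        · left
          exact Finset.mem_image.2 ⟨d', by simpa using hd', hb⟩
        · right
          exact Finset.mem_image.2 ⟨d', by simpa using hd', hb⟩

open Classical in
theorem card_good (w : D → Bool → ℕ) (T : Finset ℕ) (n : ℕ) (hn : 2 * n ≤ (nondeg w).card + 1) :
    (Finset.univ.filter (fun ω : D → Bool => Good w T ω)).card * 2 ^ n ≤
      2 ^ Fintype.card D := by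
  by_cases hne : ∃ ω₀, Good w T ω₀
  · obtain ⟨ω₀, h₀⟩ := hne
    obtain ⟨l, hl, ht⟩ := tri_exists h₀ n hn
    have hnd := tri_nodup ht
    have hcard : (Finset.univ.filter (fun ω : D → Bool => Good w T ω)).card ≤
        Fintype.card ({d // d ∉ l} → Bool) := by
      rw [← Finset.card_univ]
      refine Finset.card_le_card_of_injOn (fun ω (d : {d // d ∉ l}) => ω d.1) (by simp) ?_
      intro ω hω ω' hω' heq
      refine tri_inj h₀ ht ω ω' (Finset.mem_filter.1 hω).2 (Finset.mem_filter.1 hω').2 ?_
      intro d hd
      exact congrFun heq ⟨d, hd⟩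
    have hc2 : Fintype.card {d // d ∉ l} + n = Fintype.card D := by
      have h1 : Fintype.card {d // d ∉ l} = Fintype.card D - Fintype.card {d // d ∈ l} :=
        Fintype.card_subtype_compl _
      have h2 : Fintype.card {d // d ∈ l} = n := by
        rw [Fintype.card_subtype]
        have : Finset.univ.filter (fun d => d ∈ l) = l.toFinset := by
          ext d; simp
        rw [this, List.toFinset_card_of_nodup hnd, hl]
      have h3 : Fintype.card {d // d ∈ l} ≤ Fintype.card D := Fintype.card_subtype_le _
      omega
    calc _ ≤ Fintype.card ({d // d ∉ l} → Bool) * 2 ^ n := Nat.mul_le_mul_right _ hcard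
      _ = 2 ^ Fintype.card D := by
        rw [Fintype.card_fun, Fintype.card_bool, ← hc2, pow_add]
  · have : Finset.univ.filter (fun ω : D → Bool => Good w T ω) = ∅ := by
      rw [Finset.filter_eq_empty_iff]
      intro ω _ h
      exact hne ⟨ω, h⟩
    rw [this]
    simp

end Pool.Agent.H31.KG
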