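import Mathlib

set_option autoImplicit false

namespace Pool.Agent.H31.KG

open Finset

theorem dvd_one_of_three {κ δ d0 d1 d2 : ℤ} {x : ℤ}
    (h0 : κ + δ * d0 = x ∨ κ + δ * d0 = -x)
    (h1 : κ + δ * d1 = x + 1 ∨ κ + δ * d1 = -(x + 1))
    (h2 : κ + δ * d2 = x + 2 ∨ κ + δ * d2 = -(x + 2)) : δ ∣ 1 := by
  rcases h0 with h0 | h0 <;> rcases h1 with h1 | h1 <;> rcases h2 with h2 | h2
  · exact ⟨d1 - d0, by linarith⟩
  · exact ⟨d1 - d0, by linarith⟩
  · exact ⟨(d0 - d1) - x * (d2 - d0), by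
      have e1 : δ * (d2 - d0) = 2 := by linarith
      have e2 : δ * (d0 - d1) = 2 * x + 1 := by linarith
      have : δ * ((d0 - d1) - x * (d2 - d0)) = δ * (d0 - d1) - x * (δ * (d2 - d0)) := by ring
      rw [this, e1, e2]; ring⟩
  · exact ⟨d1 - d2, by linarith⟩
  · exact ⟨d2 - d1, by linarith⟩
  · exact ⟨-(d0 - d1) + x * (d2 - d0), by
      have e1 : δ * (d2 - d0) = -2 := by linarith
      have e2 : δ * (d0 - d1) = -(2 * x + 1) := by linarith
      have : δ * (-(d0 - d1) + x * (d2 - d0)) = -(δ * (d0 - d1)) + x * (δ * (d2 - d0)) := by ring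
      rw [this, e1, e2]; ring⟩
  · exact ⟨d0 - d1, by linarith⟩
  · exact ⟨d0 - d1, by linarith⟩

theorem final (m0 mx k n0 : ℕ) (S : Finset ℕ) (hS : ∀ n ∈ S, 1 ≤ n ∧ n ≤ mx) (hn0 : n0 ∈ S)
    (hm0 : 8 * mx + 8 ≤ m0) (V : ℕ → ℕ)
    (hinj : ∀ d d', d < m0 → d' < m0 → V d = V d' → d = d')
    (hsurj : ∀ v, k ≤ v → v < k + m0 → ∃ d < m0, V d = v)
    (hrange : ∀ d < m0, k ≤ V d ∧ V d < k + m0)
    (κ δ : ℤ)
    (hnorm : ∀ d < m0, (∀ n ∈ S, d + n ≠ 2 * mx) → V d = Int.natAbs (κ + δ * d))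
    (d0 : ℕ) (hd0 : d0 < m0) (hd0' : ∃ n ∈ S, d0 + n = 2 * mx)
    (htest : V d0 = Int.natAbs (δ * (2 * mx)))
    (hk : 1 ≤ k) : k ∈ S := by
  have hmx : 1 ≤ mx := le_trans (hS _ hn0).1 (hS _ hn0).2
  -- step 1
  have hδ1 : δ ∣ 1 := by
    have hScard : S.card ≤ mx := by
      have : S ⊆ Finset.Icc 1 mx := fun n hn => Finset.mem_Icc.2 (hS n hn)
      calc S.card ≤ (Finset.Icc 1 mx).card := Finset.card_le_card this
        _ = mx := by rw [Nat.card_Icc]; omega
    obtain ⟨i, hi, hi'⟩ := Finset.exists_mem_notMem_of_card_lt_card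
      (s := S.image (fun n => (V (2 * mx - n) - k) / 3)) (t := Finset.range (mx + 1)) (by
        rw [Finset.card_range]
        exact lt_of_le_of_lt (le_trans Finset.card_image_le hScard) (Nat.lt_succ_self _))
    rw [Finset.mem_range] at hi
    have key : ∀ e : ℕ, e < 3 → ∃ d : ℕ, κ + δ * d = (((k + 3 * i : ℕ) : ℤ) + (e : ℕ)) ∨
        κ + δ * d = -(((k + 3 * i : ℕ) : ℤ) + (e : ℕ)) := by
      intro e he
      obtain ⟨d, hd, hV⟩ := hsurj (k + 3 * i + e) (by omega) (by omega)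
      have hno : ∀ n ∈ S, d + n ≠ 2 * mx := by
        intro n hn heq
        apply hi'
        refine Finset.mem_image.2 ⟨n, hn, ?_⟩
        have : 2 * mx - n = d := by omega
        rw [this, hV]
        omega
      rw [hnorm d hd hno] at hV
      refine ⟨d, ?_⟩
      rcases Int.natAbs_eq (κ + δ * d) with h | h
      · left; rw [h, hV]; push_cast; ring
      · right; rw [h, hV]; push_cast; ring
    obtain ⟨e0, h0⟩ := key 0 (by norm_num)
    obtain ⟨e1, h1⟩ := key 1 (by norm_num)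
    obtain ⟨e2, h2⟩ := key 2 (by norm_num)
    refine dvd_one_of_three (κ := κ) (δ := δ) (d0 := e0) (d1 := e1) (d2 := e2)
      (x := ((k + 3 * i : ℕ) : ℤ)) ?_ ?_ ?_
    · simpa using h0
    · simpa using h1
    · simpa using h2
  have hδ2 : δ = 1 ∨ δ = -1 := Int.isUnit_iff.1 (isUnit_of_dvd_one hδ1)
  obtain ⟨z, hz⟩ : ∃ z : ℤ, ∀ d < m0, (∀ n ∈ S, d + n ≠ 2 * mx) → V d = Int.natAbs ((d : ℤ) - z) := by
    rcases hδ2 with rfl | rfl
    · exact ⟨-κ, fun d hd hn => by rw [hnorm d hd hn]; congr 1; ring⟩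
    · exact ⟨κ, fun d hd hn => by
        rw [hnorm d hd hn, show (d : ℤ) - κ = -(κ + -1 * d) by ring, Int.natAbs_neg]⟩
  have ht : V d0 = 2 * mx := by
    rw [htest]
    rcases hδ2 with rfl | rfl
    · omega
    · omega
  obtain ⟨n1, hn1, hn1'⟩ := hd0'
  have hn1'' := hS _ hn1
  have hkt := hrange d0 hd0
  rw [ht] at hkt
  have n0' : ∀ n ∈ S, 0 + n ≠ 2 * mx := by
    intro n hn; have := hS n hn; omega
  have hlast : ∀ d, 2 * mx ≤ d → ∀ n ∈ S, d + n ≠ 2 * mx := by
    intro d hd n hn; have := hS n hn; omega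
  have V0 := hz 0 (by omega) n0'
  have V1 := hz (m0 - 1) (by omega) (hlast _ (by omega))
  have r0 := hrange 0 (by omega)
  have r1 := hrange (m0 - 1) (by omega)
  rcases lt_or_ge z 0 with hz0 | hz0
  · -- shifted mode
    have hzk : z = -(k : ℤ) := by
      rw [V0] at r0
      rw [V1] at r1
      omega
    by_cases hno : ∀ n ∈ S, (2 * mx - k) + n ≠ 2 * mx
    · exfalso
      have h1 := hz (2 * mx - k) (by omega) hno
      have h2 : V (2 * mx - k) = 2 * mx := by rw [h1, hzk]; omega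
      have h3 := hinj (2 * mx - k) d0 (by omega) hd0 (by rw [h2, ht])
      exact hno n1 hn1 (by rw [h3]; exact hn1')
    · push Not at hno
      obtain ⟨n, hn, hn'⟩ := hno
      have : n = k := by omega
      rw [← this]; exact hn
  · rcases lt_or_ge z m0 with hz1 | hz1
    · exfalso
      obtain ⟨zn, rfl⟩ := Int.eq_ofNat_of_zero_le hz0
      have hzn : zn < m0 := by exact_mod_cast hz1
      by_cases hno : ∀ n ∈ S, zn + n ≠ 2 * mx
      · have h1 := hz zn hzn hno
        have h2 := hrange zn hzn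
        simp at h1
        omega
      · push Not at hno
        obtain ⟨n, hn, hn'⟩ := hno
        have hn2 := hS n hn
        have a1 : ∀ n' ∈ S, (zn - mx) + n' ≠ 2 * mx := by
          intro n' hn'; have := hS n' hn'; omega
        have a2 : ∀ n' ∈ S, (zn + mx) + n' ≠ 2 * mx := by
          intro n' hn'; have := hS n' hn'; omega
        have b1 := hz (zn - mx) (by omega) a1
        have b2 := hz (zn + mx) (by omega) a2
        have c1 : V (zn - mx) = mx := by rw [b1]; omega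
        have c2 : V (zn + mx) = mx := by rw [b2]; omega
        have := hinj (zn - mx) (zn + mx) (by omega) (by omega) (by rw [c1, c2])
        omega
    · exfalso
      obtain ⟨zn, rfl⟩ := Int.eq_ofNat_of_zero_le hz0
      have hzn : m0 ≤ zn := by exact_mod_cast hz1
      have hzk : zn = k + m0 - 1 := by
        rw [V0] at r0
        rw [V1] at r1
        omega
      have h1 := hz (zn - 2 * mx) (by omega) (hlast _ (by omega))
      have h2 : V (zn - 2 * mx) = 2 * mx := by rw [h1]; omega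
      have h3 := hinj (zn - 2 * mx) d0 (by omega) hd0 (by rw [h2, ht])
      omega

end Pool.Agent.H31.KG
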