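import Mathlib

set_option autoImplicit false
set_option linter.unusedSectionVars false

namespace Pool.Agent.H31.KG

open Finset

/-- sign attached to a Boolean -/
def sgn (b : Bool) : ℤ := if b then 1 else -1

theorem rel_iff (p p' q q' : ℤ) :
    |p - q| = |p' - q'| ↔ ∃ b : Bool, p' - sgn b * p = q' - sgn b * q := by
  constructor
  · intro h
    rcases abs_eq_abs.1 h with h | h
    · exact ⟨true, by simp only [sgn]; simp; linarith⟩
    · exact ⟨false, by simp only [sgn]; simp; linarith⟩
  · rintro ⟨b, hb⟩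
    rw [abs_eq_abs]
    cases b
    · right; simp [sgn] at hb; linarith
    · left; simp [sgn] at hb; linarith

theorem two_signs (p p' q q' : ℤ) (b : Bool) (h1 : p' - sgn b * p = q' - sgn b * q)
    (h2 : p' - sgn (!b) * p = q' - sgn (!b) * q) : p = q := by
  cases b <;> simp [sgn] at h1 h2 <;> linarith

variable {Y A : Type*} [Fintype Y] [Fintype A] [DecidableEq Y] [DecidableEq A]

/-- number of elements `a` not related to `y` -/
def badAt (y1 y2 : Y → ℤ) (a1 a2 : A → ℤ) (y : Y) : ℕ :=
  (Finset.univ.filter (fun a => |y1 y - a1 a| ≠ |y2 y - a2 a|)).card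

/-- number of unrelated pairs -/
def badN (y1 y2 : Y → ℤ) (a1 a2 : A → ℤ) : ℕ := ∑ y, badAt y1 y2 a1 a2 y

theorem badN_comm (y1 y2 : Y → ℤ) (a1 a2 : A → ℤ) :
    badN y1 y2 a1 a2 = badN a1 a2 y1 y2 := by
  unfold badN badAt
  simp only [Finset.card_filter]
  rw [Finset.sum_comm]
  refine Finset.sum_congr rfl fun a _ => Finset.sum_congr rfl fun y _ => ?_
  rw [abs_sub_comm (y1 y) (a1 a), abs_sub_comm (y2 y) (a2 a)]

/-- exceptional set -/
def exc (a1 a2 : A → ℤ) (b : Bool) (l : ℤ) : Finset A :=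
  Finset.univ.filter (fun a => a2 a - sgn b * a1 a ≠ l)

theorem bad_of_exc (y1 y2 : Y → ℤ) (a1 a2 : A → ℤ) (ha : Function.Injective a1)
    (b : Bool) (l : ℤ) (y : Y) (hy : y2 y - sgn b * y1 y ≠ l) :
    Fintype.card A ≤ badAt y1 y2 a1 a2 y + 1 + (exc a1 a2 b l).card := by
  classical
  set Z : Finset A := Finset.univ.filter
    (fun a => a2 a - sgn b * a1 a = l ∧ a2 a - sgn (!b) * a1 a = y2 y - sgn (!b) * y1 y) with hZ
  have hZc : Z.card ≤ 1 := by
    rw [Finset.card_le_one]
    intro a ha' a' ha''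
    rw [hZ, Finset.mem_filter] at ha' ha''
    apply ha
    exact two_signs _ (a2 a) _ (a2 a') b (by rw [ha'.2.1, ha''.2.1]) (by rw [ha'.2.2, ha''.2.2])
  have hsub : (Finset.univ : Finset A) ⊆
      (Finset.univ.filter (fun a => |y1 y - a1 a| ≠ |y2 y - a2 a|)) ∪ Z ∪ exc a1 a2 b l := by
    intro a _
    by_cases h1 : a ∈ exc a1 a2 b l
    · exact Finset.mem_union_right _ h1
    · apply Finset.mem_union_left
      by_cases h2 : |y1 y - a1 a| = |y2 y - a2 a|
      · apply Finset.mem_union_right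
        obtain ⟨b', hb'⟩ := (rel_iff _ _ _ _).1 h2
        have h3 : a2 a - sgn b * a1 a = l := by
          by_contra h; exact h1 (by simp [exc, h])
        have hbb : b' = !b := by
          by_contra hne
          have : b' = b := by cases b <;> cases b' <;> simp_all
          subst this
          rw [h3] at hb'
          exact hy hb'
        subst hbb
        rw [hZ, Finset.mem_filter]
        exact ⟨Finset.mem_univ _, h3, hb'.symm⟩
      · apply Finset.mem_union_left
        simp [h2]
  have := Finset.card_le_card hsub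
  calc Fintype.card A = (Finset.univ : Finset A).card := rfl
    _ ≤ _ := this
    _ ≤ _ := Finset.card_union_le _ _
    _ ≤ (badAt y1 y2 a1 a2 y + Z.card) + (exc a1 a2 b l).card := by
        gcongr
        exact Finset.card_union_le _ _
    _ ≤ _ := by omega

theorem exc_mul_le (y1 y2 : Y → ℤ) (a1 a2 : A → ℤ) (ha : Function.Injective a1)
    (b : Bool) (l : ℤ) :
    (exc y1 y2 b l).card * (Fintype.card A - 1 - (exc a1 a2 b l).card) ≤ badN y1 y2 a1 a2 := by
  calc (exc y1 y2 b l).card * (Fintype.card A - 1 - (exc a1 a2 b l).card)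
      = ∑ y ∈ exc y1 y2 b l, (Fintype.card A - 1 - (exc a1 a2 b l).card) := by
        rw [Finset.sum_const, smul_eq_mul]
    _ ≤ ∑ y ∈ exc y1 y2 b l, badAt y1 y2 a1 a2 y := by
        refine Finset.sum_le_sum fun y hy => ?_
        have := bad_of_exc y1 y2 a1 a2 ha b l y (Finset.mem_filter.1 hy).2
        omega
    _ ≤ badN y1 y2 a1 a2 := Finset.sum_le_sum_of_subset (Finset.subset_univ _)

theorem core (y1 y2 : Y → ℤ) (a1 a2 : A → ℤ) (hy : Function.Injective y1)
    (ha : Function.Injective a1) (hp : 8 ≤ Fintype.card Y) (hq : 8 ≤ Fintype.card A)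
    (hN : 16 * badN y1 y2 a1 a2 < Fintype.card Y * Fintype.card A)
    (b : Bool) (l : ℤ) (y y' : Y) (hne : y ≠ y')
    (h1 : y2 y - sgn b * y1 y = l) (h2 : y2 y' - sgn b * y1 y' = l)
    (hb1 : 8 * badAt y1 y2 a1 a2 y ≤ Fintype.card A)
    (hb2 : 8 * badAt y1 y2 a1 a2 y' ≤ Fintype.card A) :
    Fintype.card Y * (exc a1 a2 b l).card + Fintype.card A * (exc y1 y2 b l).card
      ≤ 32 * badN y1 y2 a1 a2 := by
  classical
  have hA : 4 * (exc a1 a2 b l).card ≤ Fintype.card A := by
    have hsub : exc a1 a2 b l ⊆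
        (Finset.univ.filter (fun a => |y1 y - a1 a| ≠ |y2 y - a2 a|)) ∪
        (Finset.univ.filter (fun a => |y1 y' - a1 a| ≠ |y2 y' - a2 a|)) := by
      intro a hex
      have hex' := (Finset.mem_filter.1 hex).2
      rw [Finset.mem_union]
      by_contra hcon
      push Not at hcon
      simp only [Finset.mem_filter, Finset.mem_univ, true_and, not_not] at hcon
      obtain ⟨c1, hc1⟩ := (rel_iff _ _ _ _).1 hcon.1
      obtain ⟨c2, hc2⟩ := (rel_iff _ _ _ _).1 hcon.2
      have e1 : c1 = !b := by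
        by_contra hn
        have : c1 = b := by cases b <;> cases c1 <;> simp_all
        subst this
        exact hex' (by rw [← hc1, h1])
      have e2 : c2 = !b := by
        by_contra hn
        have : c2 = b := by cases b <;> cases c2 <;> simp_all
        subst this
        exact hex' (by rw [← hc2, h2])
      subst e1
      subst e2
      apply hne
      apply hy
      exact two_signs _ (y2 y) _ (y2 y') b (by rw [h1, h2]) (by rw [hc1, hc2])
    have := Finset.card_le_card hsub
    have h3 := Finset.card_union_le (Finset.univ.filter (fun a => |y1 y - a1 a| ≠ |y2 y - a2 a|))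
        (Finset.univ.filter (fun a => |y1 y' - a1 a| ≠ |y2 y' - a2 a|))
    unfold badAt at hb1 hb2
    omega
  have hY1 := exc_mul_le y1 y2 a1 a2 ha b l
  have hA1 := exc_mul_le a1 a2 y1 y2 hy b l
  rw [badN_comm a1 a2 y1 y2] at hA1
  set p := Fintype.card Y
  set q := Fintype.card A
  set N := badN y1 y2 a1 a2
  set eA := (exc a1 a2 b l).card
  set eY := (exc y1 y2 b l).card
  have hY2 : eY * q ≤ 2 * N := by
    have : q ≤ 2 * (q - 1 - eA) := by omega
    calc eY * q ≤ eY * (2 * (q - 1 - eA)) := Nat.mul_le_mul_left _ this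
      _ = 2 * (eY * (q - 1 - eA)) := by ring
      _ ≤ 2 * N := Nat.mul_le_mul_left _ hY1
  have hY3 : 8 * eY < p := by
    by_contra hcon
    push Not at hcon
    have h4 : p * q ≤ 8 * eY * q := Nat.mul_le_mul_right _ hcon
    have h5 : 8 * eY * q = 8 * (eY * q) := by ring
    omega
  have hA2 : eA * p ≤ 2 * N := by
    have : p ≤ 2 * (p - 1 - eY) := by omega
    calc eA * p ≤ eA * (2 * (p - 1 - eY)) := Nat.mul_le_mul_left _ this
      _ = 2 * (eA * (p - 1 - eY)) := by ring
      _ ≤ 2 * N := Nat.mul_le_mul_left _ hA1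
  have e1 : p * eA = eA * p := by ring
  have e2 : q * eY = eY * q := by ring
  omega

theorem structure_lemma (y1 y2 : Y → ℤ) (a1 a2 : A → ℤ) (hy : Function.Injective y1)
    (ha : Function.Injective a1) (hp : 8 ≤ Fintype.card Y) (hq : 8 ≤ Fintype.card A) :
    ∃ (b : Bool) (l : ℤ), (l = 0 ∨ ∃ y, l = y2 y - sgn b * y1 y) ∧
      Fintype.card Y * (exc a1 a2 b l).card + Fintype.card A * (exc y1 y2 b l).card
        ≤ 32 * badN y1 y2 a1 a2 := by
  classical
  by_cases hN : 16 * badN y1 y2 a1 a2 < Fintype.card Y * Fintype.card A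
  · set Ty : Finset Y := Finset.univ.filter (fun y => 8 * badAt y1 y2 a1 a2 y ≤ Fintype.card A)
      with hTy
    have h3 : 2 < Ty.card := by
      by_contra hcon
      push Not at hcon
      have hc : Fintype.card Y - 2 ≤ (Tyᶜ).card := by
        rw [Finset.card_compl]; omega
      have h4 : (Tyᶜ).card * (Fintype.card A + 1) ≤ 8 * badN y1 y2 a1 a2 := by
        calc (Tyᶜ).card * (Fintype.card A + 1) = ∑ y ∈ Tyᶜ, (Fintype.card A + 1) := by
              rw [Finset.sum_const, smul_eq_mul]
          _ ≤ ∑ y ∈ Tyᶜ, 8 * badAt y1 y2 a1 a2 y := by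
              refine Finset.sum_le_sum fun y hy => ?_
              have : ¬ (8 * badAt y1 y2 a1 a2 y ≤ Fintype.card A) := by
                intro h
                exact (Finset.mem_compl.1 hy) (by rw [hTy]; simp [h])
              omega
          _ ≤ ∑ y, 8 * badAt y1 y2 a1 a2 y := Finset.sum_le_sum_of_subset (Finset.subset_univ _)
          _ = 8 * badN y1 y2 a1 a2 := by rw [← Finset.mul_sum]; rfl
      have h5 : (Fintype.card Y - 2) * (Fintype.card A + 1) ≤ 8 * badN y1 y2 a1 a2 :=
        le_trans (Nat.mul_le_mul_right _ hc) h4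
      obtain ⟨p, hp'⟩ : ∃ p, Fintype.card Y = p + 8 := ⟨Fintype.card Y - 8, by omega⟩
      rw [hp'] at h5 hN
      have : p + 8 - 2 = p + 6 := by omega
      rw [this] at h5
      nlinarith
    obtain ⟨z1, m1, z2, m2, z3, m3, n12, n13, n23⟩ := Finset.two_lt_card.1 h3
    rw [hTy, Finset.mem_filter] at m1 m2 m3
    have hex : ∃ a, (|y1 z1 - a1 a| = |y2 z1 - a2 a|) ∧ (|y1 z2 - a1 a| = |y2 z2 - a2 a|) ∧
        (|y1 z3 - a1 a| = |y2 z3 - a2 a|) := by
      by_contra hcon
      push Not at hcon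
      have hsub : (Finset.univ : Finset A) ⊆
          (Finset.univ.filter (fun a => |y1 z1 - a1 a| ≠ |y2 z1 - a2 a|)) ∪
          (Finset.univ.filter (fun a => |y1 z2 - a1 a| ≠ |y2 z2 - a2 a|)) ∪
          (Finset.univ.filter (fun a => |y1 z3 - a1 a| ≠ |y2 z3 - a2 a|)) := by
        intro a _
        simp only [Finset.mem_union, Finset.mem_filter, Finset.mem_univ, true_and]
        by_cases c1 : |y1 z1 - a1 a| = |y2 z1 - a2 a|
        · by_cases c2 : |y1 z2 - a1 a| = |y2 z2 - a2 a|
          · right; exact hcon a c1 c2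
          · left; right; exact c2
        · left; left; exact c1
      have h4 := Finset.card_le_card hsub
      have h5 := Finset.card_union_le ((Finset.univ.filter (fun a => |y1 z1 - a1 a| ≠ |y2 z1 - a2 a|)) ∪
          (Finset.univ.filter (fun a => |y1 z2 - a1 a| ≠ |y2 z2 - a2 a|)))
          (Finset.univ.filter (fun a => |y1 z3 - a1 a| ≠ |y2 z3 - a2 a|))
      have h6 := Finset.card_union_le (Finset.univ.filter (fun a => |y1 z1 - a1 a| ≠ |y2 z1 - a2 a|))
          (Finset.univ.filter (fun a => |y1 z2 - a1 a| ≠ |y2 z2 - a2 a|))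
      have e1 := m1.2
      have e2 := m2.2
      have e3 := m3.2
      unfold badAt at e1 e2 e3
      rw [Finset.card_univ] at h4
      omega
    obtain ⟨a, r1, r2, r3⟩ := hex
    obtain ⟨c1, hc1⟩ := (rel_iff _ _ _ _).1 r1
    obtain ⟨c2, hc2⟩ := (rel_iff _ _ _ _).1 r2
    obtain ⟨c3, hc3⟩ := (rel_iff _ _ _ _).1 r3
    by_cases e12 : c1 = c2
    · subst e12
      exact ⟨c1, _, Or.inr ⟨z1, rfl⟩, core y1 y2 a1 a2 hy ha hp hq hN c1 _ z1 z2 n12 rfl
        (by rw [hc1, hc2]) m1.2 m2.2⟩
    · by_cases e13 : c1 = c3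
      · subst e13
        exact ⟨c1, _, Or.inr ⟨z1, rfl⟩, core y1 y2 a1 a2 hy ha hp hq hN c1 _ z1 z3 n13 rfl
          (by rw [hc1, hc3]) m1.2 m3.2⟩
      · have e23 : c2 = c3 := by cases c1 <;> cases c2 <;> cases c3 <;> simp_all
        subst e23
        exact ⟨c2, _, Or.inr ⟨z2, rfl⟩, core y1 y2 a1 a2 hy ha hp hq hN c2 _ z2 z3 n23 rfl
          (by rw [hc2, hc3]) m2.2 m3.2⟩
  · refine ⟨true, 0, Or.inl rfl, ?_⟩
    push Not at hN
    have h1 : (exc a1 a2 true 0).card ≤ Fintype.card A := Finset.card_le_univ _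
    have h2 : (exc y1 y2 true 0).card ≤ Fintype.card Y := Finset.card_le_univ _
    have h3 := Nat.mul_le_mul_left (Fintype.card Y) h1
    have h4 := Nat.mul_le_mul_left (Fintype.card A) h2
    have h5 : Fintype.card A * Fintype.card Y = Fintype.card Y * Fintype.card A := by ring
    omega

end Pool.Agent.H31.KG
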