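import Pool.Agent.H31.KG.Planted
import Pool.Agent.H31.KG.Final
import Pool.Agent.H31.KG.Struct

set_option autoImplicit false

namespace Pool.Agent.H31.KG

open Finset

theorem affine {L N : ℕ} (hL : 2 ≤ L) (hN : 4 * L + 2 ≤ N) (F : ℕ → ℤ)
    (hinj : ∀ x y, x < N → y < N → F x = F y → x = y) (b0 b1 : Bool) (l0 l1 : ℤ)
    (R0A : ∀ a ≤ L, F (a + L) - sgn b0 * F a = l0)
    (R0Y : ∀ j < L, F (3 * L + 2 + j) - sgn b0 * F (2 * L + 1 + j) = l0)
    (R1A : ∀ a < L, F (a + L + 1) - sgn b1 * F a = l1)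
    (R1Y : ∀ j < L, F (2 * L + 1 + (j + 1)) - sgn b1 * F (3 * L + 2 + j) = l1) :
    ∃ δ : ℤ, (∀ a ≤ 2 * L, F a = F 0 + δ * a) ∧
      (∀ j ≤ L, F (2 * L + 1 + j) = F (2 * L + 1) + δ * ((j * (2 * L + 1) : ℕ) : ℤ)) ∧
      (∀ j < L, F (3 * L + 2 + j) = F (2 * L + 1) + δ * ((j * (2 * L + 1) + L : ℕ) : ℤ)) := by
  -- relation between consecutive fine labels
  have hstep : ∀ a < L, sgn b0 * F (a + 1) + l0 = sgn b1 * F a + l1 := by
    intro a ha
    have h1 := R0A (a + 1) (by omega)
    have h2 := R1A a ha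
    rw [show a + 1 + L = a + L + 1 by ring] at h1
    linarith
  have hmixed : sgn b0 = sgn b1 := by
    by_contra hne
    have h0 := hstep 0 (by omega)
    have h1 := hstep 1 (by omega)
    have : F 0 = F 2 := by
      cases b0 <;> cases b1 <;> simp [sgn] at hne h0 h1 <;> linarith
    have := hinj 0 2 (by omega) (by omega) this
    omega
  have hb0 : b0 = true := by
    by_contra hb
    have hb0 : b0 = false := by simpa using hb
    subst hb0
    have e1 : sgn false = -1 := rfl
    rw [← hmixed, e1] at hstep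
    rw [e1] at R0A
    have h1 := R0A 0 (by omega)
    have h2 := R0A 1 (by omega)
    have h3 := hstep 0 (by omega)
    have h4 := hstep (L - 1) (by omega)
    rw [show L - 1 + 1 = L by omega] at h4
    rw [show 0 + L = L by omega] at h1
    rw [show 0 + 1 = 1 by rfl] at h3
    have : F (1 + L) = F (L - 1) := by linarith
    have := hinj _ _ (by omega) (by omega) this
    omega
  subst hb0
  have hb1 : sgn b1 = 1 := by rw [← hmixed]; rfl
  have hb0 : sgn true = 1 := rfl
  rw [hb1] at hstep R1A R1Y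
  rw [hb0] at hstep R0A R0Y
  set δ : ℤ := l1 - l0 with hδ
  have hfine : ∀ a ≤ L, F a = F 0 + δ * a := by
    intro a
    induction a with
    | zero => intro _; simp
    | succ a ih =>
      intro ha
      have := ih (by omega)
      have h2 := hstep a (by omega)
      push_cast
      linarith
  have hl0 : l0 = δ * L := by
    have h1 := R0A 0 (by omega)
    have h2 := hfine L le_rfl
    rw [show 0 + L = L by omega] at h1
    linarith
  refine ⟨δ, ?_, ?_⟩
  · intro a ha
    by_cases h : a ≤ L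
    · exact hfine a h
    · obtain ⟨c, rfl⟩ : ∃ c, a = c + L := ⟨a - L, by omega⟩
      have h1 := R0A c (by omega)
      have h2 := hfine c (by omega)
      push_cast
      linarith
  · have hE : ∀ j ≤ L, F (2 * L + 1 + j) = F (2 * L + 1) + δ * ((j * (2 * L + 1) : ℕ) : ℤ) := by
      intro j
      induction j with
      | zero => intro _; simp
      | succ j ih =>
        intro hj
        have h1 := ih (by omega)
        have h2 := R0Y j (by omega)
        have h3 := R1Y j (by omega)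
        have e : F (2 * L + 1 + (j + 1)) = F (2 * L + 1 + j) + l0 + l1 := by linarith
        rw [e, h1]
        push_cast
        linarith
    refine ⟨hE, ?_⟩
    intro j hj
    have h1 := hE j (by omega)
    have h2 := R0Y j hj
    have e : F (3 * L + 2 + j) = F (2 * L + 1 + j) + l0 := by linarith
    rw [e, h1]
    push_cast
    linarith

/-- labels as an integer valued function on codes -/
def ext {N : ℕ} (f : Fin N → ℕ) (n : ℕ) : ℤ := if h : n < N then (f ⟨n, h⟩ : ℤ) else 0

theorem ext_eq {N : ℕ} (f : Fin N → ℕ) {n : ℕ} (h : n < N) : ext f n = (f ⟨n, h⟩ : ℤ) := by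
  unfold ext; rw [dif_pos h]

theorem ext_inj {N : ℕ} {f : Fin N → ℕ} (hf : Function.Injective f) :
    ∀ x y, x < N → y < N → ext f x = ext f y → x = y := by
  intro x y hx hy h
  rw [ext_eq f hx, ext_eq f hy] at h
  have := hf (Nat.cast_injective h)
  simpa using this

section
variable {L mx n0 : ℕ} {S : Finset ℕ}

theorem vl_ext (H : Hyp L mx n0 S) (f : Fin (NV L mx) → ℕ) (w : Bool)
    (p : Fin (L + 1) × Fin (2 * L + 1)) :
    vl f (ee H w p) =
      Int.natAbs (ext f (ed L mx n0 S w p.1 p.2).1 - ext f (ed L mx n0 S w p.1 p.2).2) := by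
  have h := ed_lt (n0 := n0) H.hL H.hS w (j := p.1) (a := p.2) (by omega) (by omega)
  rw [ext_eq f h.1, ext_eq f h.2]
  rfl

/-- the row of a given planted value -/
def rowOf (L d : ℕ) : ℕ × ℕ := (d / (2 * L + 1), 2 * L - d % (2 * L + 1))

theorem det (H : Hyp L mx n0 S) (ω : Fin (L + 1) × Fin (2 * L + 1) → Bool) {k : ℕ} (hk : 1 ≤ k)
    (f : Fin (NV L mx) → ℕ) (hf : KG (gr (fun p => ee H (ω p) p)) k f)
    (b0 b1 : Bool) (l0 l1 : ℤ)
    (R0A : ∀ a ≤ L, ext f (a + L) - sgn b0 * ext f a = l0)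
    (R0Y : ∀ j < L, ext f (3 * L + 2 + j) - sgn b0 * ext f (2 * L + 1 + j) = l0)
    (R1A : ∀ a < L, ext f (a + L + 1) - sgn b1 * ext f a = l1)
    (R1Y : ∀ j < L, ext f (2 * L + 1 + (j + 1)) - sgn b1 * ext f (3 * L + 2 + j) = l1) :
    k ∈ S := by
  have hL := H.hL
  have hn0 := H.hS _ H.hn0
  obtain ⟨hinj, himg⟩ := kg_good _ (ncard_gr H ω) k f hf
  rw [card_rows] at himg
  obtain ⟨δ, hA, hE, hO⟩ := affine (by omega) (by unfold NV; omega : 4 * L + 2 ≤ NV L mx)
    (ext f) (ext_inj hf.1) b0 b1 l0 l1 R0A R0Y R1A R1Y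
  -- row of d
  have hlt : ∀ d, d < (L + 1) * (2 * L + 1) → d / (2 * L + 1) < L + 1 := by
    intro d hd
    rw [Nat.div_lt_iff_lt_mul (by omega)]; exact hd
  let row : ℕ → Fin (L + 1) × Fin (2 * L + 1) := fun d =>
    if hd : d < (L + 1) * (2 * L + 1) then
      (⟨d / (2 * L + 1), hlt d hd⟩, ⟨2 * L - d % (2 * L + 1), by omega⟩) else (0, 0)
  have hrow1 : ∀ d, d < (L + 1) * (2 * L + 1) → ((row d).1 : ℕ) = d / (2 * L + 1) := by
    intro d hd; simp only [row]; rw [dif_pos hd]
  have hrow2 : ∀ d, d < (L + 1) * (2 * L + 1) → ((row d).2 : ℕ) = 2 * L - d % (2 * L + 1) := by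
    intro d hd; simp only [row]; rw [dif_pos hd]
  have hdm : ∀ d, d / (2 * L + 1) * (2 * L + 1) + d % (2 * L + 1) = d :=
    fun d => Nat.div_add_mod' _ _
  have hmod : ∀ d, d % (2 * L + 1) < 2 * L + 1 := fun d => Nat.mod_lt _ (by omega)
  have hm0 : 8 * mx + 8 ≤ (L + 1) * (2 * L + 1) := by nlinarith
  refine final ((L + 1) * (2 * L + 1)) mx k n0 S H.hS H.hn0 hm0
    (fun d => vl f (ee H (ω (row d)) (row d))) ?_ ?_ ?_
    (ext f (2 * L + 1) - ext f 0 - 2 * L * δ) δ ?_ (2 * mx - n0) (by omega)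
    ⟨n0, H.hn0, by omega⟩ ?_ hk
  · intro d d' hd hd' h
    have h1 := hinj h
    have e1 : ((row d).1 : ℕ) = (row d').1 := by rw [h1]
    have e2 : ((row d).2 : ℕ) = (row d').2 := by rw [h1]
    rw [hrow1 d hd, hrow1 d' hd'] at e1
    rw [hrow2 d hd, hrow2 d' hd'] at e2
    have m1 := hmod d
    have m2 := hmod d'
    have e3 : d % (2 * L + 1) = d' % (2 * L + 1) := by omega
    rw [← hdm d, ← hdm d', e1, e3]
  · intro v hv1 hv2
    have : v ∈ Finset.Ico k (k + (L + 1) * (2 * L + 1)) := Finset.mem_Ico.2 ⟨hv1, hv2⟩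
    rw [← himg] at this
    obtain ⟨p, -, hp⟩ := Finset.mem_image.1 this
    have hp1 := p.1.2
    have hp2 := p.2.2
    have hlt2 : (p.1 : ℕ) * (2 * L + 1) + (2 * L - (p.2 : ℕ)) < (L + 1) * (2 * L + 1) := by
      have h1 : ((p.1 : ℕ) + 1) * (2 * L + 1) ≤ (L + 1) * (2 * L + 1) :=
        Nat.mul_le_mul_right _ (by omega)
      have h2 : ((p.1 : ℕ) + 1) * (2 * L + 1) = (p.1 : ℕ) * (2 * L + 1) + (2 * L + 1) := by ring
      omega
    refine ⟨(p.1 : ℕ) * (2 * L + 1) + (2 * L - (p.2 : ℕ)), hlt2, ?_⟩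
    have hr : row ((p.1 : ℕ) * (2 * L + 1) + (2 * L - (p.2 : ℕ))) = p := by
      have e := divuniq (hdm ((p.1 : ℕ) * (2 * L + 1) + (2 * L - (p.2 : ℕ)))) (hmod _) (by omega)
      refine Prod.ext (Fin.ext ?_) (Fin.ext ?_)
      · rw [hrow1 _ hlt2, e.1]
      · rw [hrow2 _ hlt2, e.2]; omega
    simp only [hr]
    exact hp
  · intro d hd
    have : vl f (ee H (ω (row d)) (row d)) ∈ Finset.Ico k (k + (L + 1) * (2 * L + 1)) := by
      rw [← himg]
      exact Finset.mem_image.2 ⟨row d, Finset.mem_univ _, rfl⟩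
    exact Finset.mem_Ico.1 this
  · -- normal rows
    intro d hd hno
    rw [vl_ext]
    have e1 := hrow1 d hd
    have e2 := hrow2 d hd
    have m1 := hmod d
    have m2 := hdm d
    set j := ((row d).1 : ℕ) with hj
    set a := ((row d).2 : ℕ) with ha
    have hjL : j ≤ L := by omega
    have haL : a ≤ 2 * L := by omega
    have hda : j * (2 * L + 1) + 2 * L = d + a := by
      rw [e1, e2]; omega
    have hs : ¬ Spec L mx S j a := by
      rintro ⟨h0, h1⟩
      have := H.hS _ h1
      apply hno _ h1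
      rw [h0] at hda
      omega
    have hs' : ¬ (j = 0 ∧ 2 * mx + a - 2 * L ∈ S) := hs
    have hda' : ((j * (2 * L + 1) : ℕ) : ℤ) + 2 * L = d + a := by exact_mod_cast hda
    unfold ed
    rw [if_neg hs']
    split_ifs with h1 h2
    · simp only
      rw [hO j h1.2.2, hA (a + L) (by omega)]
      congr 1
      have : ((j * (2 * L + 1) + L : ℕ) : ℤ) = d + a - L := by push_cast; push_cast at hda'; linarith
      rw [this]
      push_cast
      ring
    · obtain ⟨i, hi⟩ : ∃ i, j = i + 1 := ⟨j - 1, by omega⟩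
      obtain ⟨c, hc⟩ : ∃ c, a = L + 1 + c := ⟨a - L - 1, by omega⟩
      have e1 : j - 1 = i := by omega
      have e2 : a - L - 1 = c := by omega
      simp only [e1, e2]
      rw [hO i (by omega), hA c (by omega)]
      congr 1
      have : ((i * (2 * L + 1) + L : ℕ) : ℤ) = d + a - 3 * L - 1 := by
        rw [hi] at hda'
        push_cast at hda' ⊢
        linarith
      rw [this, hc]
      push_cast
      ring
    · simp only
      rw [hE j hjL, hA a haL]
      congr 1
      have : ((j * (2 * L + 1) : ℕ) : ℤ) = d + a - 2 * L := by linarith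
      rw [this]
      ring
  · -- the test row
    rw [vl_ext]
    have hd : 2 * mx - n0 < (L + 1) * (2 * L + 1) := by omega
    have e1 := hrow1 _ hd
    have e2 := hrow2 _ hd
    rw [Nat.div_eq_of_lt (by omega)] at e1
    rw [Nat.mod_eq_of_lt (by omega)] at e2
    rw [e1, e2, ed_test (by omega) H.hn0]
    simp only
    rw [hA (2 * mx) (by omega)]
    rw [← Int.natAbs_neg]
    congr 1
    push_cast
    ring

end

end Pool.Agent.H31.KG
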