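import Pool.Agent.H31.KG.Abs

set_option autoImplicit false

namespace Pool.Agent.H31.KG

open Finset

/-- number of vertices -/
def NV (L mx : ℕ) : ℕ := 4 * L + 2 + 2 * (mx + 1)

/-- endpoints of the edge chosen for the row `(j, a)` -/
def ed (L mx n0 : ℕ) (S : Finset ℕ) (w : Bool) (j a : ℕ) : ℕ × ℕ :=
  if j = 0 ∧ 2 * mx + a - 2 * L ∈ S then
    (if 2 * mx + a - 2 * L = n0 then (0, 2 * mx)
      else (4 * L + 2 + 2 * (2 * mx + a - 2 * L), 4 * L + 2 + 2 * (2 * mx + a - 2 * L) + 1))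
  else if w = true ∧ a ≤ L ∧ j < L then (3 * L + 2 + j, a + L)
  else if w = true ∧ L < a ∧ 0 < j then (3 * L + 2 + (j - 1), a - L - 1)
  else (2 * L + 1 + j, a)

/-- planted labels -/
def lab (L mx n0 k x : ℕ) : ℕ :=
  if x < 2 * L + 1 then x
  else if x < 3 * L + 2 then (x - (2 * L + 1)) * (2 * L + 1) + 2 * L + k
  else if x < 4 * L + 2 then (x - (3 * L + 2)) * (2 * L + 1) + 3 * L + k
  else if (x - (4 * L + 2)) % 2 = 0 then
    ((x - (4 * L + 2)) / 2) * (2 * L + 1) + 2 * L + 1 + k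
  else ((x - (4 * L + 2)) / 2) * (2 * L + 1) + 2 * L + 1 + k +
    (2 * mx - (if (x - (4 * L + 2)) / 2 = k then n0 else (x - (4 * L + 2)) / 2) + k)

section
variable {L mx n0 k : ℕ} {S : Finset ℕ}

theorem lab_A {a : ℕ} (h : a ≤ 2 * L) : lab L mx n0 k a = a := by
  unfold lab; rw [if_pos (by omega)]

theorem lab_E {j : ℕ} (h : j ≤ L) :
    lab L mx n0 k (2 * L + 1 + j) = j * (2 * L + 1) + 2 * L + k := by
  unfold lab
  rw [if_neg (by omega), if_pos (by omega)]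
  congr 3
  omega

theorem lab_O {j : ℕ} (h : j < L) :
    lab L mx n0 k (3 * L + 2 + j) = j * (2 * L + 1) + 3 * L + k := by
  unfold lab
  rw [if_neg (by omega), if_neg (by omega), if_pos (by omega)]
  congr 3
  omega

theorem lab_K0 {n : ℕ} :
    lab L mx n0 k (4 * L + 2 + 2 * n) = n * (2 * L + 1) + 2 * L + 1 + k := by
  unfold lab
  have e1 : 4 * L + 2 + 2 * n - (4 * L + 2) = 2 * n := by omega
  have e2 : 2 * n / 2 = n := by omega
  have e3 : 2 * n % 2 = 0 := by omega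
  rw [if_neg (by omega), if_neg (by omega), if_neg (by omega), e1, if_pos e3, e2]

theorem lab_K1 {n : ℕ} :
    lab L mx n0 k (4 * L + 2 + 2 * n + 1) = n * (2 * L + 1) + 2 * L + 1 + k +
      (2 * mx - (if n = k then n0 else n) + k) := by
  unfold lab
  have e1 : 4 * L + 2 + 2 * n + 1 - (4 * L + 2) = 2 * n + 1 := by omega
  have e2 : (2 * n + 1) / 2 = n := by omega
  have e3 : ¬ (2 * n + 1) % 2 = 0 := by omega
  rw [if_neg (by omega), if_neg (by omega), if_neg (by omega), e1, if_neg e3, e2]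

theorem ed_lt (hL : 3 * mx + 2 ≤ L) (hS : ∀ n ∈ S, 1 ≤ n ∧ n ≤ mx) (w : Bool) {j a : ℕ}
    (hj : j ≤ L) (ha : a ≤ 2 * L) :
    (ed L mx n0 S w j a).1 < NV L mx ∧ (ed L mx n0 S w j a).2 < NV L mx := by
  unfold ed NV
  split_ifs with h1 h2
  · simp only; omega
  · have := hS _ h1.2
    simp only; omega
  · simp only; omega
  · simp only; omega
  · simp only; omega

/-- special rows -/
def Spec (L mx : ℕ) (S : Finset ℕ) (j a : ℕ) : Prop := j = 0 ∧ 2 * mx + a - 2 * L ∈ S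

/-- value of a normal row in the planted labelling -/
theorem ed_normal (w : Bool) {j a : ℕ} (hj : j ≤ L) (ha : a ≤ 2 * L)
    (hs : ¬ Spec L mx S j a) :
    ((lab L mx n0 k (ed L mx n0 S w j a).1 : ℤ) - (lab L mx n0 k (ed L mx n0 S w j a).2 : ℤ)) =
      ((j * (2 * L + 1) + 2 * L + k : ℕ) : ℤ) - a := by
  have hs' : ¬ (j = 0 ∧ 2 * mx + a - 2 * L ∈ S) := hs
  unfold ed
  rw [if_neg hs']
  split_ifs with h1 h2
  · simp only
    rw [lab_O h1.2.2, lab_A (by omega)]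
    push_cast
    ring
  · obtain ⟨i, rfl⟩ : ∃ i, j = i + 1 := ⟨j - 1, by omega⟩
    obtain ⟨c, rfl⟩ : ∃ c, a = L + 1 + c := ⟨a - L - 1, by omega⟩
    have e1 : i + 1 - 1 = i := by omega
    have e2 : L + 1 + c - L - 1 = c := by omega
    simp only [e1, e2]
    rw [lab_O (by omega), lab_A (by omega)]
    push_cast
    ring
  · simp only
    rw [lab_E hj, lab_A ha]

theorem divuniq {m q r q' r' : ℕ} (h : q * m + r = q' * m + r') (hr : r < m) (hr' : r' < m) :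
    q = q' ∧ r = r' := by
  have hm : 0 < m := by omega
  have h1 : (q * m + r) / m = q := by
    rw [Nat.add_comm, Nat.add_mul_div_right _ _ hm, Nat.div_eq_of_lt hr]; omega
  have h2 : (q' * m + r') / m = q' := by
    rw [Nat.add_comm, Nat.add_mul_div_right _ _ hm, Nat.div_eq_of_lt hr']; omega
  have h3 : q = q' := by rw [← h1, h, h2]
  subst h3
  exact ⟨rfl, by omega⟩

theorem code_cases {x : ℕ} (hx : x < NV L mx) :
    (x ≤ 2 * L) ∨ (∃ j ≤ L, x = 2 * L + 1 + j) ∨ (∃ j < L, x = 3 * L + 2 + j) ∨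
      (∃ n ≤ mx, x = 4 * L + 2 + 2 * n) ∨ (∃ n ≤ mx, x = 4 * L + 2 + 2 * n + 1) := by
  unfold NV at hx
  by_cases h1 : x ≤ 2 * L
  · exact Or.inl h1
  by_cases h2 : x < 3 * L + 2
  · exact Or.inr (Or.inl ⟨x - (2 * L + 1), by omega, by omega⟩)
  by_cases h3 : x < 4 * L + 2
  · exact Or.inr (Or.inr (Or.inl ⟨x - (3 * L + 2), by omega, by omega⟩))
  by_cases h4 : (x - (4 * L + 2)) % 2 = 0
  · exact Or.inr (Or.inr (Or.inr (Or.inl ⟨(x - (4 * L + 2)) / 2, by omega, by omega⟩)))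
  · exact Or.inr (Or.inr (Or.inr (Or.inr ⟨(x - (4 * L + 2)) / 2, by omega, by omega⟩)))

/-- normal form of the planted labels: either below `2L+1`, or quotient/remainder -/
theorem lab_form (hL : 3 * mx + 2 ≤ L) (hn0 : 1 ≤ n0) (hn0' : n0 ≤ mx) (hk : 1 ≤ k) (hk' : k ≤ mx)
    {x : ℕ} (hx : x < NV L mx) :
    (x ≤ 2 * L ∧ lab L mx n0 k x = x) ∨
    (∃ q r, q ≤ L ∧ r ≤ L ∧ lab L mx n0 k x = q * (2 * L + 1) + 2 * L + k + r ∧
      (q = L → r = 0) ∧
      ((r = 0 ∧ x = 2 * L + 1 + q) ∨ (r = L ∧ x = 3 * L + 2 + q) ∨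
        (r = 1 ∧ x = 4 * L + 2 + 2 * q) ∨
        (r = 1 + (2 * mx - (if q = k then n0 else q) + k) ∧ x = 4 * L + 2 + 2 * q + 1))) := by
  rcases code_cases hx with h | ⟨j, hj, rfl⟩ | ⟨j, hj, rfl⟩ | ⟨n, hn, rfl⟩ | ⟨n, hn, rfl⟩
  · exact Or.inl ⟨h, lab_A h⟩
  · refine Or.inr ⟨j, 0, hj, by omega, ?_, by simp, Or.inl ⟨rfl, rfl⟩⟩
    rw [lab_E hj]; omega
  · refine Or.inr ⟨j, L, by omega, by omega, ?_, by omega, Or.inr (Or.inl ⟨rfl, rfl⟩)⟩
    rw [lab_O hj]; omega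
  · refine Or.inr ⟨n, 1, by omega, by omega, ?_, by omega, Or.inr (Or.inr (Or.inl ⟨rfl, rfl⟩))⟩
    rw [lab_K0]; omega
  · refine Or.inr ⟨n, 1 + (2 * mx - (if n = k then n0 else n) + k), by omega, ?_, ?_, by omega,
      Or.inr (Or.inr (Or.inr ⟨rfl, rfl⟩))⟩
    · omega
    · rw [lab_K1]; omega

theorem lab_inj (hL : 3 * mx + 2 ≤ L) (hn0 : 1 ≤ n0) (hn0' : n0 ≤ mx) (hk : 1 ≤ k) (hk' : k ≤ mx)
    {x y : ℕ} (hx : x < NV L mx) (hy : y < NV L mx) (h : lab L mx n0 k x = lab L mx n0 k y) :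
    x = y := by
  rcases lab_form hL hn0 hn0' hk hk' hx with ⟨hx1, hx2⟩ | ⟨q, r, hq, hr, hx2, -, hx3⟩
  · rcases lab_form hL hn0 hn0' hk hk' hy with ⟨hy1, hy2⟩ | ⟨q', r', hq', hr', hy2, -, hy3⟩
    · omega
    · exfalso
      rw [hx2, hy2] at h
      omega
  · rcases lab_form hL hn0 hn0' hk hk' hy with ⟨hy1, hy2⟩ | ⟨q', r', hq', hr', hy2, -, hy3⟩
    · exfalso
      rw [hx2, hy2] at h
      omega
    · rw [hx2, hy2] at h
      have h' : q * (2 * L + 1) + r = q' * (2 * L + 1) + r' := by omega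
      obtain ⟨e1, e2⟩ := divuniq h' (by omega) (by omega)
      subst e1
      subst e2
      split_ifs at hx3 hy3 <;> omega

theorem lab_lt (hL : 3 * mx + 2 ≤ L) (hn0 : 1 ≤ n0) (hn0' : n0 ≤ mx) (hk : 1 ≤ k) (hk' : k ≤ mx)
    {x : ℕ} (hx : x < NV L mx) : lab L mx n0 k x < (L + 1) * (2 * L + 1) + k := by
  rcases lab_form hL hn0 hn0' hk hk' hx with ⟨hx1, hx2⟩ | ⟨q, r, hq, hr, hx2, hx4, hx3⟩
  · rw [hx2]
    have : (L + 1) * (2 * L + 1) = L * (2 * L + 1) + (2 * L + 1) := by ring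
    omega
  · rw [hx2]
    by_cases hqL : q = L
    · rw [hx4 hqL, hqL]
      have : (L + 1) * (2 * L + 1) = L * (2 * L + 1) + (2 * L + 1) := by ring
      omega
    · have h1 : (q + 1) * (2 * L + 1) ≤ L * (2 * L + 1) := Nat.mul_le_mul_right _ (by omega)
      have h2 : (q + 1) * (2 * L + 1) = q * (2 * L + 1) + (2 * L + 1) := by ring
      have : (L + 1) * (2 * L + 1) = L * (2 * L + 1) + (2 * L + 1) := by ring
      omega

end

end Pool.Agent.H31.KG
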