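import Pool.Agent.H31.KG.Union

set_option autoImplicit false

namespace Pool.Agent.H31.KG

open Finset Filter

theorem exists_t (e A : ℕ) (C : ℝ) : ∃ t : ℕ, A ≤ t ∧ C * ((131072 : ℝ) * (t : ℝ) ^ 2) ^ e < 2 ^ t := by
  have h := tendsto_pow_const_div_const_pow_of_one_lt (2 * e) (r := (2 : ℝ)) (by norm_num)
  set D : ℝ := (|C| + 1) * 131072 ^ e with hD
  have hDpos : 0 < D := by positivity
  have h1 : ∀ᶠ n : ℕ in atTop, (n : ℝ) ^ (2 * e) / 2 ^ n < 1 / D :=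
    h.eventually_lt_const (by positivity)
  obtain ⟨t, ht1, ht2⟩ := (h1.and (eventually_ge_atTop A)).exists
  refine ⟨t, ht2, ?_⟩
  rw [div_lt_div_iff₀ (by positivity) hDpos] at ht1
  have h3 : C ≤ |C| + 1 := by linarith [le_abs_self C]
  calc C * ((131072 : ℝ) * (t : ℝ) ^ 2) ^ e ≤ (|C| + 1) * ((131072 : ℝ) * (t : ℝ) ^ 2) ^ e := by
        gcongr
    _ = (t : ℝ) ^ (2 * e) * D := by rw [hD, mul_pow, ← pow_mul]; ring
    _ < 1 * 2 ^ t := ht1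
    _ = 2 ^ t := one_mul _

theorem numeric (mx : ℕ) : ∃ t : ℕ, mx + 1 ≤ t ∧
    (((128 * t + 1) * (2 * (128 * t) + 1) + 1 : ℕ) : ℝ) * 4 *
      ((4 * (2 * ((128 * t + 1) * (2 * (128 * t) + 1))) + 1 : ℕ) : ℝ) ^ 2 * ((1 / 2 : ℝ) ^ t) *
      (((2 * ((128 * t + 1) * (2 * (128 * t) + 1)) : ℕ) * (1 + (1 / 2 : ℝ) ^ t * (2 * ((128 * t + 1) * (2 * (128 * t) + 1)) : ℕ)) ^ (2 * (128 * t))) *
       ((2 * ((128 * t + 1) * (2 * (128 * t) + 1)) : ℕ) * (1 + (1 / 2 : ℝ) ^ t * (2 * ((128 * t + 1) * (2 * (128 * t) + 1)) : ℕ)) ^ (2 * (128 * t))) *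
        ((2 * ((128 * t + 1) * (2 * (128 * t) + 1)) : ℕ) : ℝ) ^ (2 * (mx + 1))) < 1 := by
  obtain ⟨t, ht, hlt⟩ := exists_t (2 * mx + 7) (mx + 1) 300
  refine ⟨t, ht, ?_⟩
  have ht1 : (1 : ℝ) ≤ t := by exact_mod_cast (by omega : 1 ≤ t)
  set Q : ℝ := 131072 * (t : ℝ) ^ 2 with hQ
  set m0 : ℕ := (128 * t + 1) * (2 * (128 * t) + 1) with hm0
  set R : ℝ := ((2 * m0 : ℕ) : ℝ) with hR
  set ε : ℝ := (1 / 2 : ℝ) ^ t with hε
  have hε0 : 0 < ε := by positivity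
  have hε2 : ε * 2 ^ t = 1 := by
    rw [hε, ← mul_pow]; norm_num
  have htt : (t : ℝ) ≤ (t : ℝ) ^ 2 := by nlinarith
  have hRQ : R ≤ Q := by
    rw [hR, hQ, hm0]
    push_cast
    nlinarith
  have hR0 : 0 ≤ R := by rw [hR]; positivity
  have hQ1 : 1 ≤ Q := by rw [hQ]; nlinarith
  have hm0R : ((m0 + 1 : ℕ) : ℝ) ≤ R := by
    rw [hR]
    have : 1 ≤ m0 := by rw [hm0]; exact Nat.one_le_iff_ne_zero.2 (by positivity)
    exact_mod_cast (by omega : m0 + 1 ≤ 2 * m0)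
  have h4R : ((4 * (2 * m0) + 1 : ℕ) : ℝ) ≤ 5 * Q := by
    have : ((4 * (2 * m0) + 1 : ℕ) : ℝ) = 4 * R + 1 := by rw [hR]; push_cast; ring
    rw [this]; linarith
  have hQpow : Q * Q ≤ Q ^ (2 * mx + 7) := by
    rw [← sq]
    exact pow_le_pow_right₀ hQ1 (by omega)
  have hεQ : 4 * (128 * (t : ℝ)) * (ε * R) ≤ 1 := by
    have h1 : 4 * (128 * (t : ℝ)) ≤ Q := by rw [hQ]; nlinarith
    have h2 : Q * Q < 2 ^ t := by
      refine lt_of_le_of_lt ?_ hlt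
      have : (1 : ℝ) ≤ 300 := by norm_num
      nlinarith [hQpow, sq_nonneg Q]
    calc 4 * (128 * (t : ℝ)) * (ε * R) ≤ Q * (ε * Q) := by gcongr
      _ = ε * (Q * Q) := by ring
      _ ≤ ε * 2 ^ t := by gcongr
      _ = 1 := hε2
  have hexp : (1 + ε * R) ^ (2 * (128 * t)) * (1 + ε * R) ^ (2 * (128 * t)) ≤ 3 := by
    rw [← pow_add]
    have h1 : 1 + ε * R ≤ Real.exp (ε * R) := by
      have := Real.add_one_le_exp (ε * R)
      linarith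
    calc (1 + ε * R) ^ (2 * (128 * t) + 2 * (128 * t))
        ≤ (Real.exp (ε * R)) ^ (2 * (128 * t) + 2 * (128 * t)) := by gcongr
      _ = Real.exp (((2 * (128 * t) + 2 * (128 * t) : ℕ) : ℝ) * (ε * R)) := by
          rw [← Real.exp_nat_mul]
      _ ≤ Real.exp 1 := by
          apply Real.exp_le_exp.2
          refine le_trans (le_of_eq ?_) hεQ
          push_cast
          ring
      _ ≤ 3 := by
          have := Real.exp_one_lt_d9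
          linarith
  calc ((m0 + 1 : ℕ) : ℝ) * 4 * ((4 * (2 * m0) + 1 : ℕ) : ℝ) ^ 2 * ε *
        ((R * (1 + ε * R) ^ (2 * (128 * t))) * (R * (1 + ε * R) ^ (2 * (128 * t))) *
          R ^ (2 * (mx + 1)))
      = ((m0 + 1 : ℕ) : ℝ) * 4 * ((4 * (2 * m0) + 1 : ℕ) : ℝ) ^ 2 * ε * R ^ 2 *
          R ^ (2 * (mx + 1)) *
          ((1 + ε * R) ^ (2 * (128 * t)) * (1 + ε * R) ^ (2 * (128 * t))) := by ring
    _ ≤ Q * 4 * (5 * Q) ^ 2 * ε * Q ^ 2 * Q ^ (2 * (mx + 1)) * 3 := by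
        have h1 : ((m0 + 1 : ℕ) : ℝ) ≤ Q := le_trans hm0R hRQ
        gcongr
    _ = 300 * Q ^ (2 * mx + 7) * ε := by ring
    _ < 2 ^ t * ε := by gcongr
    _ = 1 := by rw [mul_comm]; exact hε2

theorem main (S : Finset ℕ) (hne : S.Nonempty) (hpos : ∀ n ∈ S, 0 < n) :
    ∃ (N : ℕ) (G : SimpleGraph (Fin N)), ∀ k : ℕ, 0 < k → ((∃ f : Fin N → ℕ, KG G k f) ↔ k ∈ S) := by
  obtain ⟨n0, hn0⟩ := hne
  set mx := S.sup id with hmx
  obtain ⟨t, ht, hnum⟩ := numeric mx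
  have H : Hyp (128 * t) mx n0 S := by
    refine ⟨by omega, ?_, hn0⟩
    intro n hn
    exact ⟨hpos n hn, Finset.le_sup (f := id) hn⟩
  obtain ⟨ω, hω⟩ := union_bound H (t := t) rfl (by omega) hnum
  refine ⟨NV (128 * t) mx, gr (fun p => ee H (ω p) p), ?_⟩
  intro k hk
  constructor
  · exact fun h => hω k hk h
  · exact fun h => ⟨_, planted H ω h⟩

end Pool.Agent.H31.KG
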