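import Mathlib

set_option autoImplicit false

namespace Pool.Agent.H31.KG

open Finset

open Classical in
/-- weight of a path of labels: a factor `ε` for each violated step -/
noncomputable def wt (ok : ℕ → ℕ → ℕ → Prop) (ε : ℝ) (R n : ℕ) (g : Fin (n + 1) → Fin R) : ℝ :=
  ∏ i : Fin n, (if ok i (g i.castSucc) (g i.succ) then 1 else ε)

theorem wt_nonneg (ok : ℕ → ℕ → ℕ → Prop) {ε : ℝ} (hε : 0 ≤ ε) (R n : ℕ)
    (g : Fin (n + 1) → Fin R) : 0 ≤ wt ok ε R n g := by
  unfold wt
  refine Finset.prod_nonneg fun i _ => ?_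
  split_ifs <;> linarith

open Classical in
theorem step_sum (P : ℕ → Prop) (hP : ∀ y y', P y → P y' → y = y') {ε : ℝ} (hε : 0 ≤ ε) (R : ℕ) :
    ∑ y : Fin R, (if P y then (1 : ℝ) else ε) ≤ 1 + ε * R := by
  have h1 : ∀ y : Fin R, (if P y then (1 : ℝ) else ε) ≤ (if P y then 1 else 0) + ε := by
    intro y
    split_ifs <;> linarith
  calc ∑ y : Fin R, (if P y then (1 : ℝ) else ε)
      ≤ ∑ y : Fin R, ((if P y then (1 : ℝ) else 0) + ε) := Finset.sum_le_sum fun y _ => h1 y
    _ = ∑ y : Fin R, (if P y then (1 : ℝ) else 0) + ε * R := by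
        rw [Finset.sum_add_distrib, Finset.sum_const, Finset.card_univ, Fintype.card_fin,
          nsmul_eq_mul, mul_comm (R : ℝ) ε]
    _ ≤ 1 + ε * R := by
        have h2 : (Finset.univ.filter (fun y : Fin R => P y)).card ≤ 1 := by
          rw [Finset.card_le_one]
          intro a ha b hb
          exact Fin.ext (hP _ _ (Finset.mem_filter.1 ha).2 (Finset.mem_filter.1 hb).2)
        have h3 : (∑ y : Fin R, (if P y then (1 : ℝ) else 0)) ≤ 1 := by
          rw [Finset.sum_boole]
          exact_mod_cast h2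
        linarith

open Classical in
theorem path_sum (ok : ℕ → ℕ → ℕ → Prop) (hok : ∀ i x y y', ok i x y → ok i x y' → y = y')
    {ε : ℝ} (hε : 0 ≤ ε) (R : ℕ) :
    ∀ n : ℕ, ∑ g : Fin (n + 1) → Fin R, wt ok ε R n g ≤ R * (1 + ε * R) ^ n
  | 0 => by
      simp [wt]
  | n + 1 => by
      have ih := path_sum ok hok hε R n
      rw [← (Fin.snocEquiv (fun _ : Fin (n + 1 + 1) => Fin R)).sum_comp, Fintype.sum_prod_type,
        Finset.sum_comm]
      have h1 : ∀ (g : Fin (n + 1) → Fin R) (y : Fin R),
          wt ok ε R (n + 1) ((Fin.snocEquiv (fun _ : Fin (n + 1 + 1) => Fin R)) (y, g)) =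
            wt ok ε R n g * (if ok n (g (Fin.last n)) y then 1 else ε) := by
        intro g y
        unfold wt
        rw [Fin.prod_univ_castSucc]
        have e : ∀ i : Fin (n + 1), (Fin.snocEquiv (fun _ : Fin (n + 1 + 1) => Fin R)) (y, g)
            i.castSucc = g i := by
          intro i
          simp [Fin.snocEquiv]
        have e2 : (Fin.snocEquiv (fun _ : Fin (n + 1 + 1) => Fin R)) (y, g)
            (Fin.last (n + 1)) = y := by
          simp [Fin.snocEquiv]
        congr 1
        · refine Finset.prod_congr rfl fun i _ => ?_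
          rw [e, Fin.succ_castSucc, e]
          rfl
        · rw [e, Fin.succ_last, e2]
          rfl
      calc ∑ g : Fin (n + 1) → Fin R, ∑ y : Fin R,
            wt ok ε R (n + 1) ((Fin.snocEquiv (fun _ : Fin (n + 1 + 1) => Fin R)) (y, g))
          = ∑ g : Fin (n + 1) → Fin R, wt ok ε R n g *
              ∑ y : Fin R, (if ok n (g (Fin.last n)) y then (1 : ℝ) else ε) := by
            refine Finset.sum_congr rfl fun g _ => ?_
            rw [Finset.mul_sum]
            exact Finset.sum_congr rfl fun y _ => h1 g y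
        _ ≤ ∑ g : Fin (n + 1) → Fin R, wt ok ε R n g * (1 + ε * R) := by
            refine Finset.sum_le_sum fun g _ => ?_
            exact mul_le_mul_of_nonneg_left
              (step_sum _ (fun y y' h h' => hok _ _ _ _ h h') hε R) (wt_nonneg ok hε R n g)
        _ = (∑ g : Fin (n + 1) → Fin R, wt ok ε R n g) * (1 + ε * R) := by
            rw [Finset.sum_mul]
        _ ≤ (R * (1 + ε * R) ^ n) * (1 + ε * R) := by
            gcongr
        _ = R * (1 + ε * R) ^ (n + 1) := by ring

end Pool.Agent.H31.KG
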