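import Pool.Agent.H31.KG.Graph

set_option autoImplicit false

namespace Pool.Agent.H31.KG

open Finset

/-- standing hypotheses -/
structure Hyp (L mx n0 : ℕ) (S : Finset ℕ) : Prop where
  hL : 3 * mx + 2 ≤ L
  hS : ∀ n ∈ S, 1 ≤ n ∧ n ≤ mx
  hn0 : n0 ∈ S

section
variable {L mx n0 : ℕ} {S : Finset ℕ}

/-- endpoints as vertices -/
def ee (H : Hyp L mx n0 S) (w : Bool) (p : Fin (L + 1) × Fin (2 * L + 1)) :
    Fin (NV L mx) × Fin (NV L mx) :=
  (⟨(ed L mx n0 S w p.1 p.2).1, (ed_lt H.hL H.hS w (by omega) (by omega)).1⟩,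
    ⟨(ed L mx n0 S w p.1 p.2).2, (ed_lt H.hL H.hS w (by omega) (by omega)).2⟩)

/-- planted labels as a function on vertices -/
def labF (L mx n0 k : ℕ) (v : Fin (NV L mx)) : ℕ := lab L mx n0 k v

theorem vl_labF (H : Hyp L mx n0 S) (w : Bool) (p : Fin (L + 1) × Fin (2 * L + 1)) (k : ℕ) :
    vl (labF L mx n0 k) (ee H w p) =
      Int.natAbs ((lab L mx n0 k (ed L mx n0 S w p.1 p.2).1 : ℤ) -
        (lab L mx n0 k (ed L mx n0 S w p.1 p.2).2 : ℤ)) := rfl

theorem vl_normal (H : Hyp L mx n0 S) (w : Bool) (p : Fin (L + 1) × Fin (2 * L + 1)) (k : ℕ)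
    (hs : ¬ Spec L mx S p.1 p.2) :
    vl (labF L mx n0 k) (ee H w p) = (p.1 : ℕ) * (2 * L + 1) + (2 * L - (p.2 : ℕ)) + k := by
  rw [vl_labF, ed_normal w (by omega) (by omega) hs]
  have := p.2.2
  omega

theorem ed_test {w : Bool} {a : ℕ} (h1 : 2 * mx + a - 2 * L = n0) (h2 : n0 ∈ S) :
    ed L mx n0 S w 0 a = (0, 2 * mx) := by
  unfold ed
  rw [if_pos ⟨rfl, by rw [h1]; exact h2⟩, if_pos h1]

theorem ed_K {w : Bool} {a n : ℕ} (h1 : 2 * mx + a - 2 * L = n) (h2 : n ∈ S) (h3 : n ≠ n0) :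
    ed L mx n0 S w 0 a = (4 * L + 2 + 2 * n, 4 * L + 2 + 2 * n + 1) := by
  unfold ed
  rw [if_pos ⟨rfl, by rw [h1]; exact h2⟩, h1, if_neg h3]

theorem vl_test (H : Hyp L mx n0 S) (w : Bool) (p : Fin (L + 1) × Fin (2 * L + 1)) (k : ℕ)
    (h0 : (p.1 : ℕ) = 0) (h1 : 2 * mx + (p.2 : ℕ) - 2 * L = n0) :
    vl (labF L mx n0 k) (ee H w p) = 2 * mx := by
  rw [vl_labF, h0, ed_test h1 H.hn0]
  simp only
  have := H.hL
  rw [lab_A (by omega), lab_A (by omega)]
  omega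

theorem vl_K (H : Hyp L mx n0 S) (w : Bool) (p : Fin (L + 1) × Fin (2 * L + 1)) (k n : ℕ)
    (h0 : (p.1 : ℕ) = 0) (h1 : 2 * mx + (p.2 : ℕ) - 2 * L = n) (h2 : n ∈ S) (h3 : n ≠ n0) :
    vl (labF L mx n0 k) (ee H w p) = 2 * mx - (if n = k then n0 else n) + k := by
  rw [vl_labF, h0, ed_K h1 h2 h3]
  simp only
  rw [lab_K0, lab_K1]
  omega

/-- all rows at the base value `k = n0` -/
theorem vl_base (H : Hyp L mx n0 S) (w : Bool) (p : Fin (L + 1) × Fin (2 * L + 1)) :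
    vl (labF L mx n0 n0) (ee H w p) = (p.1 : ℕ) * (2 * L + 1) + (2 * L - (p.2 : ℕ)) + n0 := by
  have hp2 := p.2.2
  have hL := H.hL
  have hn0 := H.hS _ H.hn0
  by_cases hs : Spec L mx S p.1 p.2
  · obtain ⟨h0, h1⟩ := hs
    have hn := H.hS _ h1
    by_cases h2 : 2 * mx + (p.2 : ℕ) - 2 * L = n0
    · rw [vl_test H w p n0 h0 h2, h0]
      omega
    · rw [vl_K H w p n0 _ h0 rfl h1 h2, if_neg h2, h0]
      omega
  · exact vl_normal H w p n0 hs

theorem ncard_gr (H : Hyp L mx n0 S) (ω : Fin (L + 1) × Fin (2 * L + 1) → Bool) :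
    (gr (fun p => ee H (ω p) p)).edgeSet.ncard =
      Fintype.card (Fin (L + 1) × Fin (2 * L + 1)) := by
  refine gr_ncard _ (labF L mx n0 n0) ?_ ?_
  · intro p p' h
    simp only [vl_base] at h
    have h1 : (p.1 : ℕ) * (2 * L + 1) + (2 * L - (p.2 : ℕ)) =
        (p'.1 : ℕ) * (2 * L + 1) + (2 * L - (p'.2 : ℕ)) := by omega
    obtain ⟨e1, e2⟩ := divuniq h1 (by omega) (by omega)
    have := p.2.2
    have := p'.2.2
    exact Prod.ext (Fin.ext e1) (Fin.ext (by omega))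
  · intro p
    rw [vl_base]
    have := H.hS _ H.hn0
    omega

theorem card_rows : Fintype.card (Fin (L + 1) × Fin (2 * L + 1)) = (L + 1) * (2 * L + 1) := by
  rw [Fintype.card_prod, Fintype.card_fin, Fintype.card_fin]

theorem planted (H : Hyp L mx n0 S) (ω : Fin (L + 1) × Fin (2 * L + 1) → Bool) {k : ℕ}
    (hk : k ∈ S) : KG (gr (fun p => ee H (ω p) p)) k (labF L mx n0 k) := by
  have hL := H.hL
  have hn0 := H.hS _ H.hn0
  have hk1 := H.hS _ hk
  refine kg_of _ (ncard_gr H ω) k (by omega) _ ?_ ?_ ?_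
  · intro x y h
    exact Fin.ext (lab_inj hL hn0.1 hn0.2 hk1.1 hk1.2 x.2 y.2 h)
  · intro v
    rw [card_rows]
    exact lab_lt hL hn0.1 hn0.2 hk1.1 hk1.2 v.2
  · intro m hm1 hm2
    rw [card_rows] at hm2
    obtain ⟨d, rfl⟩ : ∃ d, m = d + k := ⟨m - k, by omega⟩
    have hd : d < (L + 1) * (2 * L + 1) := by omega
    have hdiv : d / (2 * L + 1) < L + 1 := by
      rw [Nat.div_lt_iff_lt_mul (by omega)]; exact hd
    have hmod : d % (2 * L + 1) < 2 * L + 1 := Nat.mod_lt _ (by omega)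
    have hdm : d / (2 * L + 1) * (2 * L + 1) + d % (2 * L + 1) = d := Nat.div_add_mod' _ _
    set j : Fin (L + 1) := ⟨d / (2 * L + 1), hdiv⟩ with hj
    set a : Fin (2 * L + 1) := ⟨2 * L - d % (2 * L + 1), by omega⟩ with ha
    have hjv : (j : ℕ) = d / (2 * L + 1) := rfl
    have hav : (a : ℕ) = 2 * L - d % (2 * L + 1) := rfl
    by_cases hs : Spec L mx S j a
    · obtain ⟨h0, h1⟩ := hs
      have hn := H.hS _ h1
      set n := 2 * mx + (a : ℕ) - 2 * L with hn'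
      have hd2 : d = 2 * mx - n := by
        rw [hjv] at h0
        rw [h0] at hdm
        omega
      by_cases hnk : n = k
      · refine ⟨(0, ⟨2 * L + n0 - 2 * mx, by omega⟩), ?_⟩
        rw [vl_test H _ _ k rfl (by simp only; omega)]
        omega
      · by_cases hnn : n = n0
        · refine ⟨(0, ⟨2 * L + k - 2 * mx, by omega⟩), ?_⟩
          rw [vl_K H _ _ k k rfl (by simp only; omega) hk (by omega), if_pos rfl]
          omega
        · refine ⟨(j, a), ?_⟩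
          rw [vl_K H _ _ k n h0 rfl h1 hnn, if_neg hnk]
          omega
    · refine ⟨(j, a), ?_⟩
      rw [vl_normal H _ _ k hs]
      simp only
      rw [hjv]
      omega

end

end Pool.Agent.H31.KG
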