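import Pool.Agent.H31.KG.Det
import Pool.Agent.H31.KG.PathSum

set_option autoImplicit false

namespace Pool.Agent.H31.KG

open Finset

def y10 (L : ℕ) (F : ℕ → ℤ) (j : Fin L) : ℤ := F (2 * L + 1 + j)
def y20 (L : ℕ) (F : ℕ → ℤ) (j : Fin L) : ℤ := F (3 * L + 2 + j)
def a10 (L : ℕ) (F : ℕ → ℤ) (a : Fin (L + 1)) : ℤ := F a
def a20 (L : ℕ) (F : ℕ → ℤ) (a : Fin (L + 1)) : ℤ := F (a + L)
def y11 (L : ℕ) (F : ℕ → ℤ) (j : Fin L) : ℤ := F (3 * L + 2 + j)
def y21 (L : ℕ) (F : ℕ → ℤ) (j : Fin L) : ℤ := F (2 * L + 1 + (j + 1))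
def a11 (L : ℕ) (F : ℕ → ℤ) (a : Fin L) : ℤ := F a
def a21 (L : ℕ) (F : ℕ → ℤ) (a : Fin L) : ℤ := F (a + L + 1)

/-- total number of exceptional elements -/
def xx (L : ℕ) (F : ℕ → ℤ) (b0 b1 : Bool) (l0 l1 : ℤ) : ℕ :=
  ((exc (a10 L F) (a20 L F) b0 l0).card + (exc (y10 L F) (y20 L F) b0 l0).card) +
  ((exc (a11 L F) (a21 L F) b1 l1).card + (exc (y11 L F) (y21 L F) b1 l1).card)

section
variable {L mx n0 : ℕ} {S : Finset ℕ}

theorem ed_low_false (H : Hyp L mx n0 S) {j a : ℕ} (ha : a ≤ L) :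
    ed L mx n0 S false j a = (2 * L + 1 + j, a) := by
  have hL := H.hL
  unfold ed
  rw [if_neg, if_neg (by simp), if_neg (by simp)]
  rintro ⟨-, h⟩
  have := H.hS _ h
  omega

theorem ed_low_true (H : Hyp L mx n0 S) {j a : ℕ} (ha : a ≤ L) (hj : j < L) :
    ed L mx n0 S true j a = (3 * L + 2 + j, a + L) := by
  have hL := H.hL
  unfold ed
  rw [if_neg, if_pos ⟨rfl, ha, hj⟩]
  rintro ⟨-, h⟩
  have := H.hS _ h
  omega

theorem ed_high_false {j a : ℕ} :
    ed L mx n0 S false (j + 1) (a + L + 1) = (2 * L + 1 + (j + 1), a + L + 1) := by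
  unfold ed
  rw [if_neg (by omega), if_neg (by simp), if_neg (by simp)]

theorem ed_high_true {j a : ℕ} :
    ed L mx n0 S true (j + 1) (a + L + 1) = (3 * L + 2 + j, a) := by
  unfold ed
  rw [if_neg (by omega), if_neg (by omega), if_pos ⟨rfl, by omega, by omega⟩]
  congr 1
  omega

theorem ed_top (H : Hyp L mx n0 S) (w : Bool) {a : ℕ} (ha : a ≤ L) :
    ed L mx n0 S w L a = (2 * L + 1 + L, a) := by
  have hL := H.hL
  unfold ed
  rw [if_neg (by omega), if_neg (by omega), if_neg (by omega)]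

theorem natAbs_ne_of_abs {x y : ℤ} (h : |x| ≠ |y|) : x.natAbs ≠ y.natAbs := by
  intro h'
  apply h
  rw [Int.abs_eq_natAbs, Int.abs_eq_natAbs, h']

theorem W_ge (H : Hyp L mx n0 S) (f : Fin (NV L mx) → ℕ) :
    badN (y10 L (ext f)) (y20 L (ext f)) (a10 L (ext f)) (a20 L (ext f)) +
      badN (y11 L (ext f)) (y21 L (ext f)) (a11 L (ext f)) (a21 L (ext f)) ≤
    (nondeg (fun (p : Fin (L + 1) × Fin (2 * L + 1)) b => vl f (ee H b p))).card := by
  classical
  have hL := H.hL
  set T0 : Finset (Σ _ : Fin L, Fin (L + 1)) := Finset.univ.sigma (fun j =>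
    Finset.univ.filter (fun a => |y10 L (ext f) j - a10 L (ext f) a| ≠
      |y20 L (ext f) j - a20 L (ext f) a|)) with hT0
  set T1 : Finset (Σ _ : Fin L, Fin L) := Finset.univ.sigma (fun j =>
    Finset.univ.filter (fun a => |y11 L (ext f) j - a11 L (ext f) a| ≠
      |y21 L (ext f) j - a21 L (ext f) a|)) with hT1
  have h0 : badN (y10 L (ext f)) (y20 L (ext f)) (a10 L (ext f)) (a20 L (ext f)) = T0.card := by
    rw [hT0, Finset.card_sigma]; rfl
  have h1 : badN (y11 L (ext f)) (y21 L (ext f)) (a11 L (ext f)) (a21 L (ext f)) = T1.card := by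
    rw [hT1, Finset.card_sigma]; rfl
  rw [h0, h1, ← Finset.card_disjSum]
  let φ : (Σ _ : Fin L, Fin (L + 1)) ⊕ (Σ _ : Fin L, Fin L) → Fin (L + 1) × Fin (2 * L + 1) :=
    Sum.elim (fun x => (⟨x.1, by omega⟩, ⟨x.2, by omega⟩))
      (fun x => (⟨x.1 + 1, by omega⟩, ⟨x.2 + L + 1, by omega⟩))
  refine Finset.card_le_card_of_injOn φ ?_ ?_
  · intro x hx
    rw [Finset.mem_coe, Finset.mem_disjSum] at hx
    simp only [nondeg, Finset.coe_filter, Finset.mem_univ, true_and, Set.mem_setOf_eq]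
    rw [vl_ext, vl_ext]
    rcases hx with ⟨⟨j, a⟩, hm, rfl⟩ | ⟨⟨j, a⟩, hm, rfl⟩
    · rw [hT0, Finset.mem_sigma, Finset.mem_filter] at hm
      have hne := natAbs_ne_of_abs hm.2.2
      simp only [φ, Sum.elim_inl]
      rw [ed_low_false H (by omega), ed_low_true H (by omega) (by omega)]
      exact hne
    · rw [hT1, Finset.mem_sigma, Finset.mem_filter] at hm
      have hne := natAbs_ne_of_abs hm.2.2
      simp only [φ, Sum.elim_inr]
      rw [ed_high_false, ed_high_true]
      exact hne.symm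
  · intro x hx x' hx' heq
    rcases x with ⟨j, a⟩ | ⟨j, a⟩ <;> rcases x' with ⟨j', a'⟩ | ⟨j', a'⟩ <;>
      simp only [φ, Sum.elim_inl, Sum.elim_inr, Prod.mk.injEq, Fin.mk.injEq] at heq
    · have e1 : j = j' := Fin.ext heq.1
      have e2 : a = a' := Fin.ext heq.2
      rw [e1, e2]
    · omega
    · omega
    · have e1 : j = j' := Fin.ext (by omega)
      have e2 : a = a' := Fin.ext (by omega)
      rw [e1, e2]

theorem k_lt (H : Hyp L mx n0 S) (ω : Fin (L + 1) × Fin (2 * L + 1) → Bool) {k : ℕ}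
    (f : Fin (NV L mx) → ℕ) (hf : KG (gr (fun p => ee H (ω p) p)) k f) :
    k < (L + 1) * (2 * L + 1) := by
  have hL := H.hL
  have hn0 := H.hS _ H.hn0
  obtain ⟨hinj, himg⟩ := kg_good _ (ncard_gr H ω) k f hf
  rw [card_rows] at himg
  have hr : ∀ p, k ≤ vl f (ee H (ω p) p) ∧ vl f (ee H (ω p) p) < k + (L + 1) * (2 * L + 1) := by
    intro p
    have : vl f (ee H (ω p) p) ∈ Finset.Ico k (k + (L + 1) * (2 * L + 1)) := by
      rw [← himg]
      exact Finset.mem_image.2 ⟨p, Finset.mem_univ _, rfl⟩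
    exact Finset.mem_Ico.1 this
  have h1 := hr (⟨L, by omega⟩, ⟨0, by omega⟩)
  have h2 := hr (⟨L, by omega⟩, ⟨2 * mx, by omega⟩)
  have h3 := hr (⟨0, by omega⟩, ⟨2 * L + n0 - 2 * mx, by omega⟩)
  rw [vl_ext] at h1 h2 h3
  simp only at h1 h2 h3
  rw [ed_top H _ (by omega)] at h1 h2
  rw [ed_test (by omega) H.hn0] at h3
  simp only at h1 h2 h3
  omega

/-- the key structural estimate -/
theorem struct_est (H : Hyp L mx n0 S) {t : ℕ} (hLt : L = 128 * t) (ht : 1 ≤ t)
    (f : Fin (NV L mx) → ℕ) (hf : Function.Injective f) (R : ℕ) (hR : ∀ v, f v < R) :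
    ∃ b0 b1 : Bool, ∃ l0 l1 : ℤ, (l0 ∈ Finset.Icc (-(2 * R : ℤ)) (2 * R)) ∧
      (l1 ∈ Finset.Icc (-(2 * R : ℤ)) (2 * R)) ∧
      4 * t * xx L (ext f) b0 b1 l0 l1 ≤
        (nondeg (fun (p : Fin (L + 1) × Fin (2 * L + 1)) b => vl f (ee H b p))).card := by
  classical
  have hinj := ext_inj hf
  have hN : 4 * L + 2 ≤ NV L mx := by unfold NV; omega
  have hy0 : Function.Injective (y10 L (ext f)) := by
    intro j j' h
    have := hinj _ _ (by omega) (by omega) h
    exact Fin.ext (by omega)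
  have ha0 : Function.Injective (a10 L (ext f)) := by
    intro j j' h
    have := hinj _ _ (by omega) (by omega) h
    exact Fin.ext (by omega)
  have hy1 : Function.Injective (y11 L (ext f)) := by
    intro j j' h
    have := hinj _ _ (by omega) (by omega) h
    exact Fin.ext (by omega)
  have ha1 : Function.Injective (a11 L (ext f)) := by
    intro j j' h
    have := hinj _ _ (by omega) (by omega) h
    exact Fin.ext (by omega)
  obtain ⟨b0, l0, hl0, hs0⟩ := structure_lemma (y10 L (ext f)) (y20 L (ext f)) (a10 L (ext f))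
    (a20 L (ext f)) hy0 ha0 (by rw [Fintype.card_fin]; omega) (by rw [Fintype.card_fin]; omega)
  obtain ⟨b1, l1, hl1, hs1⟩ := structure_lemma (y11 L (ext f)) (y21 L (ext f)) (a11 L (ext f))
    (a21 L (ext f)) hy1 ha1 (by rw [Fintype.card_fin]; omega) (by rw [Fintype.card_fin]; omega)
  have hb : ∀ x < NV L mx, 0 ≤ ext f x ∧ ext f x < R := by
    intro x hx
    rw [ext_eq f hx]
    exact ⟨by positivity, by exact_mod_cast hR _⟩
  refine ⟨b0, b1, l0, l1, ?_, ?_, ?_⟩
  · rw [Finset.mem_Icc]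
    rcases hl0 with rfl | ⟨j, rfl⟩
    · constructor <;> omega
    · have h1 := hb (2 * L + 1 + j) (by omega)
      have h2 := hb (3 * L + 2 + j) (by omega)
      unfold y20 y10
      cases b0
      · have : sgn false = -1 := rfl
        rw [this]; constructor <;> linarith
      · have : sgn true = 1 := rfl
        rw [this]; constructor <;> linarith
  · rw [Finset.mem_Icc]
    rcases hl1 with rfl | ⟨j, rfl⟩
    · constructor <;> omega
    · have h1 := hb (3 * L + 2 + j) (by omega)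
      have h2 := hb (2 * L + 1 + (j + 1)) (by omega)
      unfold y21 y11
      cases b1
      · have : sgn false = -1 := rfl
        rw [this]; constructor <;> linarith
      · have : sgn true = 1 := rfl
        rw [this]; constructor <;> linarith
  · have hW := W_ge H f
    simp only [Fintype.card_fin] at hs0 hs1
    unfold xx
    set e1 := (exc (a10 L (ext f)) (a20 L (ext f)) b0 l0).card
    set e2 := (exc (y10 L (ext f)) (y20 L (ext f)) b0 l0).card
    set e3 := (exc (a11 L (ext f)) (a21 L (ext f)) b1 l1).card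
    set e4 := (exc (y11 L (ext f)) (y21 L (ext f)) b1 l1).card
    set W := (nondeg (fun (p : Fin (L + 1) × Fin (2 * L + 1)) b => vl f (ee H b p))).card
    have h5 : L * (e1 + e2 + (e3 + e4)) ≤ 32 * W := by nlinarith
    have h6 : L * (e1 + e2 + (e3 + e4)) = 32 * (4 * t * (e1 + e2 + (e3 + e4))) := by
      rw [hLt]; ring
    omega

end

end Pool.Agent.H31.KG
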