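import Pool.Agent.H31.KG.Weight

set_option autoImplicit false

namespace Pool.Agent.H31.KG

open Finset

section
variable {L mx n0 : ℕ} {S : Finset ℕ}

/-- row values of a labelling -/
def rv (H : Hyp L mx n0 S) {R : ℕ} (g : Fin (NV L mx) → Fin R)
    (p : Fin (L + 1) × Fin (2 * L + 1)) (b : Bool) : ℕ := vl (fun v => (g v : ℕ)) (ee H b p)

open Classical in
theorem union_bound (H : Hyp L mx n0 S) {t : ℕ} (hLt : L = 128 * t) (ht : 1 ≤ t)
    (hnum : (((L + 1) * (2 * L + 1) + 1 : ℕ) : ℝ) * 4 *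
      ((4 * (2 * ((L + 1) * (2 * L + 1))) + 1 : ℕ) : ℝ) ^ 2 * ((1 / 2 : ℝ) ^ t) *
      (((2 * ((L + 1) * (2 * L + 1)) : ℕ) * (1 + (1 / 2 : ℝ) ^ t * (2 * ((L + 1) * (2 * L + 1)) : ℕ)) ^ (2 * L)) *
       ((2 * ((L + 1) * (2 * L + 1)) : ℕ) * (1 + (1 / 2 : ℝ) ^ t * (2 * ((L + 1) * (2 * L + 1)) : ℕ)) ^ (2 * L)) *
        ((2 * ((L + 1) * (2 * L + 1)) : ℕ) : ℝ) ^ (2 * (mx + 1))) < 1) :
    ∃ ω : Fin (L + 1) × Fin (2 * L + 1) → Bool, ∀ k, 1 ≤ k →
      (∃ f, KG (gr (fun p => ee H (ω p) p)) k f) → k ∈ S := by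
  by_contra hcon
  push Not at hcon
  set m0 := (L + 1) * (2 * L + 1) with hm0
  set R := 2 * m0 with hR
  set ε : ℝ := (1 / 2 : ℝ) ^ t with hε
  have hε0 : 0 ≤ ε := by positivity
  have hε1 : ε ≤ 1 := pow_le_one₀ (by norm_num) (by norm_num)
  set Ic : Finset ℤ := Finset.Icc (-(2 * R : ℤ)) (2 * R) with hIc
  have hIcc : Ic.card = 4 * R + 1 := by
    rw [hIc, Int.card_Icc]; omega
  -- index set
  let U0 : Finset ((Fin (m0 + 1) × Bool × Bool) × (ℤ × ℤ)) := Finset.univ ×ˢ (Ic ×ˢ Ic)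
  let X : ((Fin (m0 + 1) × Bool × Bool) × (ℤ × ℤ)) × (Fin (NV L mx) → Fin R) → ℕ := fun τ =>
    xx L (ext (fun v => (τ.2 v : ℕ))) τ.1.1.2.1 τ.1.1.2.2 τ.1.2.1 τ.1.2.2
  let GS : ((Fin (m0 + 1) × Bool × Bool) × (ℤ × ℤ)) × (Fin (NV L mx) → Fin R) →
      Finset (Fin (L + 1) × Fin (2 * L + 1) → Bool) := fun τ =>
    Finset.univ.filter (fun ω => Good (rv H τ.2) (Finset.Ico (τ.1.1.1 : ℕ) (τ.1.1.1 + m0)) ω)
  let P : ((Fin (m0 + 1) × Bool × Bool) × (ℤ × ℤ)) × (Fin (NV L mx) → Fin R) → Prop := fun τ =>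
    1 ≤ X τ ∧ 4 * t * X τ ≤ (nondeg (rv H τ.2)).card
  let U : Finset (((Fin (m0 + 1) × Bool × Bool) × (ℤ × ℤ)) × (Fin (NV L mx) → Fin R)) :=
    (U0 ×ˢ Finset.univ).filter P
  have hcover : (Finset.univ : Finset (Fin (L + 1) × Fin (2 * L + 1) → Bool)) ⊆ U.biUnion GS := by
    intro ω _
    obtain ⟨k, hk1, ⟨f, hf⟩, hkS⟩ := hcon ω
    have hkm : k < m0 := k_lt H ω f hf
    have hcard := ncard_gr H ω
    have hfR : ∀ v, f v < R := by
      intro v
      have h1 := hf.2.1 v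
      rw [hcard, card_rows] at h1
      omega
    obtain ⟨b0, b1, l0, l1, hl0, hl1, hest⟩ := struct_est H hLt ht f hf.1 R hfR
    have hgood := kg_good _ hcard k f hf
    rw [card_rows] at hgood
    let g : Fin (NV L mx) → Fin R := fun v => ⟨f v, hfR v⟩
    have hgf : (fun v => ((g v : Fin R) : ℕ)) = f := rfl
    have hx1 : 1 ≤ xx L (ext f) b0 b1 l0 l1 := by
      by_contra hx
      have hx0 : xx L (ext f) b0 b1 l0 l1 = 0 := by omega
      unfold xx at hx0
      have q1 : (exc (a10 L (ext f)) (a20 L (ext f)) b0 l0).card = 0 := by omega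
      have q2 : (exc (y10 L (ext f)) (y20 L (ext f)) b0 l0).card = 0 := by omega
      have q3 : (exc (a11 L (ext f)) (a21 L (ext f)) b1 l1).card = 0 := by omega
      have q4 : (exc (y11 L (ext f)) (y21 L (ext f)) b1 l1).card = 0 := by omega
      rw [Finset.card_eq_zero] at q1 q2 q3 q4
      unfold exc at q1 q2 q3 q4
      rw [Finset.filter_eq_empty_iff] at q1 q2 q3 q4
      apply hkS
      refine det H ω hk1 f hf b0 b1 l0 l1 ?_ ?_ ?_ ?_
      · intro a ha
        have := q1 (Finset.mem_univ (⟨a, by omega⟩ : Fin (L + 1)))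
        push Not at this
        exact this
      · intro j hj
        have := q2 (Finset.mem_univ (⟨j, by omega⟩ : Fin L))
        push Not at this
        exact this
      · intro a ha
        have := q3 (Finset.mem_univ (⟨a, by omega⟩ : Fin L))
        push Not at this
        exact this
      · intro j hj
        have := q4 (Finset.mem_univ (⟨j, by omega⟩ : Fin L))
        push Not at this
        exact this
    rw [Finset.mem_biUnion]
    refine ⟨(((⟨k, by omega⟩, b0, b1), (l0, l1)), g), ?_, ?_⟩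
    · simp only [U, Finset.mem_filter, Finset.mem_product, Finset.mem_univ, and_true, U0,
        true_and]
      exact ⟨⟨hl0, hl1⟩, hx1, hest⟩
    · simp only [GS, Finset.mem_filter, Finset.mem_univ, true_and]
      exact hgood
  have hterm : ∀ τ ∈ U, ((GS τ).card : ℝ) ≤
      (2 : ℝ) ^ Fintype.card (Fin (L + 1) × Fin (2 * L + 1)) * (ε * ε ^ X τ) := by
    intro τ hτ
    have hP := (Finset.mem_filter.1 hτ).2
    have h1 := card_good (rv H τ.2) (Finset.Ico (τ.1.1.1 : ℕ) (τ.1.1.1 + m0)) (2 * t * X τ)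
      (by have := hP.2; nlinarith)
    have h2 : ((GS τ).card : ℝ) * 2 ^ (2 * t * X τ) ≤
        2 ^ Fintype.card (Fin (L + 1) × Fin (2 * L + 1)) := by exact_mod_cast h1
    have h3 : (ε ^ X τ) * (ε ^ X τ) * 2 ^ (2 * t * X τ) = 1 := by
      rw [hε, ← pow_mul, ← pow_add, ← two_mul, ← mul_assoc, ← mul_pow]
      norm_num
    have h4 : ((GS τ).card : ℝ) ≤
        2 ^ Fintype.card (Fin (L + 1) × Fin (2 * L + 1)) * ((ε ^ X τ) * (ε ^ X τ)) := by
      calc ((GS τ).card : ℝ) = ((GS τ).card : ℝ) * 2 ^ (2 * t * X τ) * ((ε ^ X τ) * (ε ^ X τ)) := by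
            rw [mul_assoc, mul_comm ((2 : ℝ) ^ (2 * t * X τ)), h3, mul_one]
        _ ≤ _ := by gcongr
    refine le_trans h4 ?_
    have h5 : ε ^ X τ ≤ ε := by
      calc ε ^ X τ ≤ ε ^ 1 := pow_le_pow_of_le_one hε0 hε1 hP.1
        _ = ε := pow_one ε
    gcongr
  have hsum : (2 : ℝ) ^ Fintype.card (Fin (L + 1) × Fin (2 * L + 1)) ≤
      ∑ τ ∈ U, (2 : ℝ) ^ Fintype.card (Fin (L + 1) × Fin (2 * L + 1)) * (ε * ε ^ X τ) := by
    have h1 : Fintype.card (Fin (L + 1) × Fin (2 * L + 1) → Bool) ≤ ∑ τ ∈ U, (GS τ).card := by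
      rw [← Finset.card_univ]
      exact le_trans (Finset.card_le_card hcover) Finset.card_biUnion_le
    rw [Fintype.card_fun, Fintype.card_bool] at h1
    calc (2 : ℝ) ^ Fintype.card (Fin (L + 1) × Fin (2 * L + 1))
        ≤ ∑ τ ∈ U, ((GS τ).card : ℝ) := by exact_mod_cast h1
      _ ≤ _ := Finset.sum_le_sum hterm
  have hall : ∑ τ ∈ U, (2 : ℝ) ^ Fintype.card (Fin (L + 1) × Fin (2 * L + 1)) * (ε * ε ^ X τ) ≤
      (2 : ℝ) ^ Fintype.card (Fin (L + 1) × Fin (2 * L + 1)) *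
      ((((m0 + 1 : ℕ) : ℝ) * 4 * ((4 * R + 1 : ℕ) : ℝ) ^ 2 * ε) *
        ((R * (1 + ε * R) ^ (2 * L)) * (R * (1 + ε * R) ^ (2 * L)) * R ^ (2 * (mx + 1)))) := by
    set B : ℝ := ((R * (1 + ε * R) ^ (2 * L)) * (R * (1 + ε * R) ^ (2 * L)) *
      R ^ (2 * (mx + 1))) with hB
    calc ∑ τ ∈ U, (2 : ℝ) ^ Fintype.card (Fin (L + 1) × Fin (2 * L + 1)) * (ε * ε ^ X τ)
        ≤ ∑ τ ∈ U0 ×ˢ Finset.univ,
            (2 : ℝ) ^ Fintype.card (Fin (L + 1) × Fin (2 * L + 1)) * (ε * ε ^ X τ) := by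
          refine Finset.sum_le_sum_of_subset_of_nonneg (Finset.filter_subset _ _) ?_
          intro τ _ _
          positivity
      _ = ∑ u ∈ U0, ∑ g : Fin (NV L mx) → Fin R,
            (2 : ℝ) ^ Fintype.card (Fin (L + 1) × Fin (2 * L + 1)) * (ε * ε ^ X (u, g)) := by
          rw [Finset.sum_product]
      _ ≤ ∑ u ∈ U0, (2 : ℝ) ^ Fintype.card (Fin (L + 1) × Fin (2 * L + 1)) * (ε * B) := by
          refine Finset.sum_le_sum fun u _ => ?_
          rw [← Finset.mul_sum, ← Finset.mul_sum]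
          have := sum_pow_le (L := L) (mx := mx) (R := R) hε0 hε1 u.1.2.1 u.1.2.2 u.2.1 u.2.2
          gcongr
      _ = _ := by
          rw [Finset.sum_const, nsmul_eq_mul]
          have hc : U0.card = (m0 + 1) * 4 * (4 * R + 1) ^ 2 := by
            simp only [U0]
            rw [Finset.card_product, Finset.card_product, hIcc, Finset.card_univ,
              Fintype.card_prod, Fintype.card_prod, Fintype.card_fin, Fintype.card_bool]
            ring
          rw [hc]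
          push_cast
          ring
  have hfin := le_trans hsum hall
  have hpos : (0 : ℝ) < (2 : ℝ) ^ Fintype.card (Fin (L + 1) × Fin (2 * L + 1)) := by positivity
  have : (2 : ℝ) ^ Fintype.card (Fin (L + 1) × Fin (2 * L + 1)) <
      (2 : ℝ) ^ Fintype.card (Fin (L + 1) × Fin (2 * L + 1)) := by
    refine lt_of_le_of_lt hfin ?_
    calc _ < (2 : ℝ) ^ Fintype.card (Fin (L + 1) × Fin (2 * L + 1)) * 1 :=
          mul_lt_mul_of_pos_left hnum hpos
      _ = _ := mul_one _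
  exact lt_irrefl _ this

end

end Pool.Agent.H31.KG
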