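import Pool.Agent.H31.KG.Rows

set_option autoImplicit false

namespace Pool.Agent.H31.KG

open Finset

def okA (b0 b1 : Bool) (l0 l1 : ℤ) (i x y : ℕ) : Prop :=
  if i % 2 = 0 then (y : ℤ) - sgn b1 * x = l1 else (x : ℤ) - sgn b0 * y = l0

def okB (b0 b1 : Bool) (l0 l1 : ℤ) (i x y : ℕ) : Prop :=
  if i % 2 = 0 then (y : ℤ) - sgn b0 * x = l0 else (y : ℤ) - sgn b1 * x = l1

theorem okA_fun (b0 b1 : Bool) (l0 l1 : ℤ) (i x y y' : ℕ) (h : okA b0 b1 l0 l1 i x y)
    (h' : okA b0 b1 l0 l1 i x y') : y = y' := by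
  unfold okA at h h'
  split_ifs at h h'
  · have : (y : ℤ) = y' := by linarith
    exact_mod_cast this
  · have : (y : ℤ) = y' := by
      cases b0
      · have e : sgn false = -1 := rfl
        rw [e] at h h'; linarith
      · have e : sgn true = 1 := rfl
        rw [e] at h h'; linarith
    exact_mod_cast this

theorem okB_fun (b0 b1 : Bool) (l0 l1 : ℤ) (i x y y' : ℕ) (h : okB b0 b1 l0 l1 i x y)
    (h' : okB b0 b1 l0 l1 i x y') : y = y' := by
  unfold okB at h h'
  split_ifs at h h'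
  · have : (y : ℤ) = y' := by linarith
    exact_mod_cast this
  · have : (y : ℤ) = y' := by linarith
    exact_mod_cast this

open Classical in
theorem wt_eq (ok : ℕ → ℕ → ℕ → Prop) (ε : ℝ) (R n : ℕ) (g : Fin (n + 1) → Fin R) :
    wt ok ε R n g =
      ε ^ (Finset.univ.filter (fun i : Fin n => ¬ ok i (g i.castSucc) (g i.succ))).card := by
  unfold wt
  rw [Finset.prod_ite]
  simp

section
variable {L mx : ℕ}

def cA (L i : ℕ) : ℕ := if i % 2 = 0 then i / 2 else i / 2 + L + 1
def cB (L i : ℕ) : ℕ := if i % 2 = 0 then 2 * L + 1 + i / 2 else 3 * L + 2 + i / 2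

theorem cA_lt {i : ℕ} (hi : i < 2 * L + 1) : cA L i < NV L mx := by
  unfold cA NV; split_ifs <;> omega

theorem cB_lt {i : ℕ} (hi : i < 2 * L + 1) : cB L i < NV L mx := by
  unfold cB NV; split_ifs <;> omega

def pathA {R : ℕ} (g : Fin (NV L mx) → Fin R) (i : Fin (2 * L + 1)) : Fin R :=
  g ⟨cA L i, cA_lt i.2⟩

def pathB {R : ℕ} (g : Fin (NV L mx) → Fin R) (i : Fin (2 * L + 1)) : Fin R :=
  g ⟨cB L i, cB_lt i.2⟩

def rest {R : ℕ} (g : Fin (NV L mx) → Fin R) (i : Fin (2 * (mx + 1))) : Fin R :=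
  g ⟨4 * L + 2 + i, by unfold NV; omega⟩

theorem paths_inj {R : ℕ} : Function.Injective
    (fun g : Fin (NV L mx) → Fin R => ((pathA g, pathB g), rest g)) := by
  intro g g' h
  simp only [Prod.mk.injEq] at h
  obtain ⟨⟨hA, hB⟩, hr⟩ := h
  funext x
  have hx := x.2
  have hNV : NV L mx = 4 * L + 2 + 2 * (mx + 1) := rfl
  by_cases h1 : (x : ℕ) ≤ L
  · have := congrFun hA ⟨2 * x, by omega⟩
    unfold pathA cA at this
    simp only [Nat.mul_mod_right, if_true] at this
    have e : 2 * (x : ℕ) / 2 = x := by omega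
    simp only [e] at this
    exact this
  by_cases h2 : (x : ℕ) ≤ 2 * L
  · have := congrFun hA ⟨2 * (x - (L + 1)) + 1, by omega⟩
    unfold pathA cA at this
    have e0 : ¬ (2 * ((x : ℕ) - (L + 1)) + 1) % 2 = 0 := by omega
    have e : (2 * ((x : ℕ) - (L + 1)) + 1) / 2 + L + 1 = x := by omega
    simp only [if_neg e0, e] at this
    exact this
  by_cases h3 : (x : ℕ) < 3 * L + 2
  · have := congrFun hB ⟨2 * (x - (2 * L + 1)), by omega⟩
    unfold pathB cB at this
    have e0 : (2 * ((x : ℕ) - (2 * L + 1))) % 2 = 0 := by omega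
    have e : 2 * L + 1 + (2 * ((x : ℕ) - (2 * L + 1))) / 2 = x := by omega
    simp only [if_pos e0, e] at this
    exact this
  by_cases h4 : (x : ℕ) < 4 * L + 2
  · have := congrFun hB ⟨2 * (x - (3 * L + 2)) + 1, by omega⟩
    unfold pathB cB at this
    have e0 : ¬ (2 * ((x : ℕ) - (3 * L + 2)) + 1) % 2 = 0 := by omega
    have e : 3 * L + 2 + (2 * ((x : ℕ) - (3 * L + 2)) + 1) / 2 = x := by omega
    simp only [if_neg e0, e] at this
    exact this
  · have := congrFun hr ⟨x - (4 * L + 2), by omega⟩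
    unfold rest at this
    have e : 4 * L + 2 + ((x : ℕ) - (4 * L + 2)) = x := by omega
    simp only [e] at this
    exact this

theorem ext_g {R : ℕ} (g : Fin (NV L mx) → Fin R) {n : ℕ} (h : n < NV L mx) :
    ext (fun v => (g v : ℕ)) n = ((g ⟨n, h⟩ : ℕ) : ℤ) := ext_eq _ h

open Classical in
theorem failA {R : ℕ} (g : Fin (NV L mx) → Fin R) (b0 b1 : Bool) (l0 l1 : ℤ) :
    (Finset.univ.filter (fun i : Fin (2 * L) => ¬ okA b0 b1 l0 l1 i (pathA g i.castSucc)
      (pathA g i.succ))).card ≤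
    (exc (a10 L (ext (fun v => (g v : ℕ)))) (a20 L (ext (fun v => (g v : ℕ)))) b0 l0).card +
    (exc (a11 L (ext (fun v => (g v : ℕ)))) (a21 L (ext (fun v => (g v : ℕ)))) b1 l1).card := by
  set F := ext (fun v => (g v : ℕ)) with hF
  set E0 := exc (a10 L F) (a20 L F) b0 l0 with hE0
  set E1 := exc (a11 L F) (a21 L F) b1 l1 with hE1
  have hsub : (Finset.univ.filter (fun i : Fin (2 * L) => ¬ okA b0 b1 l0 l1 i
      (pathA g i.castSucc) (pathA g i.succ))).image (fun i : Fin (2 * L) => (i : ℕ)) ⊆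
      E0.image (fun a : Fin (L + 1) => 2 * (a : ℕ) - 1) ∪ E1.image (fun a : Fin L => 2 * (a : ℕ)) := by
    intro n hn
    obtain ⟨i, hi, rfl⟩ := Finset.mem_image.1 hn
    have hi2 := (Finset.mem_filter.1 hi).2
    have hil := i.2
    rw [Finset.mem_union]
    by_cases hpar : (i : ℕ) % 2 = 0
    · right
      refine Finset.mem_image.2 ⟨⟨i / 2, by omega⟩, ?_, by simp only; omega⟩
      rw [hE1]
      simp only [exc, Finset.mem_filter, Finset.mem_univ, true_and]
      intro hcon
      apply hi2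
      unfold okA
      rw [if_pos hpar]
      have e1 : (((pathA g i.castSucc : Fin R) : ℕ) : ℤ) = F (i / 2) := by
        rw [hF, ext_g g (by unfold NV; omega)]
        unfold pathA cA
        simp only [Fin.val_castSucc, if_pos hpar]
      have e2 : (((pathA g i.succ : Fin R) : ℕ) : ℤ) = F (i / 2 + L + 1) := by
        rw [hF, ext_g g (by unfold NV; omega)]
        unfold pathA cA
        have p1 : ¬ ((i : ℕ) + 1) % 2 = 0 := by omega
        have p2 : ((i : ℕ) + 1) / 2 = i / 2 := by omega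
        simp only [Fin.val_succ, if_neg p1, p2]
      rw [e1, e2]
      exact hcon
    · left
      refine Finset.mem_image.2 ⟨⟨i / 2 + 1, by omega⟩, ?_, by simp only; omega⟩
      rw [hE0]
      simp only [exc, Finset.mem_filter, Finset.mem_univ, true_and]
      intro hcon
      apply hi2
      unfold okA
      rw [if_neg hpar]
      have e1 : (((pathA g i.castSucc : Fin R) : ℕ) : ℤ) = F (i / 2 + 1 + L) := by
        rw [hF, ext_g g (by unfold NV; omega)]
        unfold pathA cA
        have p2 : (i : ℕ) / 2 + L + 1 = i / 2 + 1 + L := by omega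
        simp only [Fin.val_castSucc, if_neg hpar, p2]
      have e2 : (((pathA g i.succ : Fin R) : ℕ) : ℤ) = F (i / 2 + 1) := by
        rw [hF, ext_g g (by unfold NV; omega)]
        unfold pathA cA
        have p1 : ((i : ℕ) + 1) % 2 = 0 := by omega
        have p2 : ((i : ℕ) + 1) / 2 = i / 2 + 1 := by omega
        simp only [Fin.val_succ, if_pos p1, p2]
      rw [e1, e2]
      exact hcon
  have h1 := Finset.card_le_card hsub
  rw [Finset.card_image_of_injective _ (fun a b hab => Fin.ext hab)] at h1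
  have h2 := Finset.card_union_le (E0.image (fun a : Fin (L + 1) => 2 * (a : ℕ) - 1))
    (E1.image (fun a : Fin L => 2 * (a : ℕ)))
  have h3 : (E0.image (fun a : Fin (L + 1) => 2 * (a : ℕ) - 1)).card ≤ E0.card := Finset.card_image_le
  have h4 : (E1.image (fun a : Fin L => 2 * (a : ℕ))).card ≤ E1.card := Finset.card_image_le
  omega

open Classical in
theorem failB {R : ℕ} (g : Fin (NV L mx) → Fin R) (b0 b1 : Bool) (l0 l1 : ℤ) :
    (Finset.univ.filter (fun i : Fin (2 * L) => ¬ okB b0 b1 l0 l1 i (pathB g i.castSucc)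
      (pathB g i.succ))).card ≤
    (exc (y10 L (ext (fun v => (g v : ℕ)))) (y20 L (ext (fun v => (g v : ℕ)))) b0 l0).card +
    (exc (y11 L (ext (fun v => (g v : ℕ)))) (y21 L (ext (fun v => (g v : ℕ)))) b1 l1).card := by
  set F := ext (fun v => (g v : ℕ)) with hF
  set E0 := exc (y10 L F) (y20 L F) b0 l0 with hE0
  set E1 := exc (y11 L F) (y21 L F) b1 l1 with hE1
  have hsub : (Finset.univ.filter (fun i : Fin (2 * L) => ¬ okB b0 b1 l0 l1 i
      (pathB g i.castSucc) (pathB g i.succ))).image (fun i : Fin (2 * L) => (i : ℕ)) ⊆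
      E0.image (fun a : Fin L => 2 * (a : ℕ)) ∪ E1.image (fun a : Fin L => 2 * (a : ℕ) + 1) := by
    intro n hn
    obtain ⟨i, hi, rfl⟩ := Finset.mem_image.1 hn
    have hi2 := (Finset.mem_filter.1 hi).2
    have hil := i.2
    rw [Finset.mem_union]
    by_cases hpar : (i : ℕ) % 2 = 0
    · left
      refine Finset.mem_image.2 ⟨⟨i / 2, by omega⟩, ?_, by simp only; omega⟩
      rw [hE0]
      simp only [exc, Finset.mem_filter, Finset.mem_univ, true_and]
      intro hcon
      apply hi2
      unfold okB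
      rw [if_pos hpar]
      have e1 : (((pathB g i.castSucc : Fin R) : ℕ) : ℤ) = F (2 * L + 1 + i / 2) := by
        rw [hF, ext_g g (by unfold NV; omega)]
        unfold pathB cB
        simp only [Fin.val_castSucc, if_pos hpar]
      have e2 : (((pathB g i.succ : Fin R) : ℕ) : ℤ) = F (3 * L + 2 + i / 2) := by
        rw [hF, ext_g g (by unfold NV; omega)]
        unfold pathB cB
        have p1 : ¬ ((i : ℕ) + 1) % 2 = 0 := by omega
        have p2 : ((i : ℕ) + 1) / 2 = i / 2 := by omega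
        simp only [Fin.val_succ, if_neg p1, p2]
      rw [e1, e2]
      exact hcon
    · right
      refine Finset.mem_image.2 ⟨⟨i / 2, by omega⟩, ?_, by simp only; omega⟩
      rw [hE1]
      simp only [exc, Finset.mem_filter, Finset.mem_univ, true_and]
      intro hcon
      apply hi2
      unfold okB
      rw [if_neg hpar]
      have e1 : (((pathB g i.castSucc : Fin R) : ℕ) : ℤ) = F (3 * L + 2 + i / 2) := by
        rw [hF, ext_g g (by unfold NV; omega)]
        unfold pathB cB
        simp only [Fin.val_castSucc, if_neg hpar]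
      have e2 : (((pathB g i.succ : Fin R) : ℕ) : ℤ) = F (2 * L + 1 + (i / 2 + 1)) := by
        rw [hF, ext_g g (by unfold NV; omega)]
        unfold pathB cB
        have p1 : ((i : ℕ) + 1) % 2 = 0 := by omega
        have p2 : ((i : ℕ) + 1) / 2 = i / 2 + 1 := by omega
        simp only [Fin.val_succ, if_pos p1, p2]
      rw [e1, e2]
      exact hcon
  have h1 := Finset.card_le_card hsub
  rw [Finset.card_image_of_injective _ (fun a b hab => Fin.ext hab)] at h1
  have h2 := Finset.card_union_le (E0.image (fun a : Fin L => 2 * (a : ℕ)))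
    (E1.image (fun a : Fin L => 2 * (a : ℕ) + 1))
  have h3 : (E0.image (fun a : Fin L => 2 * (a : ℕ))).card ≤ E0.card := Finset.card_image_le
  have h4 : (E1.image (fun a : Fin L => 2 * (a : ℕ) + 1)).card ≤ E1.card := Finset.card_image_le
  omega

theorem sum_pow_le {R : ℕ} {ε : ℝ} (hε0 : 0 ≤ ε) (hε1 : ε ≤ 1) (b0 b1 : Bool) (l0 l1 : ℤ) :
    ∑ g : Fin (NV L mx) → Fin R, ε ^ xx L (ext (fun v => (g v : ℕ))) b0 b1 l0 l1 ≤
      (R * (1 + ε * R) ^ (2 * L)) * (R * (1 + ε * R) ^ (2 * L)) * R ^ (2 * (mx + 1)) := by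
  classical
  let h : ((Fin (2 * L + 1) → Fin R) × (Fin (2 * L + 1) → Fin R)) ×
      (Fin (2 * (mx + 1)) → Fin R) → ℝ :=
    fun x => wt (okA b0 b1 l0 l1) ε R (2 * L) x.1.1 * wt (okB b0 b1 l0 l1) ε R (2 * L) x.1.2
  have hnn : ∀ x, 0 ≤ h x := fun x =>
    mul_nonneg (wt_nonneg _ hε0 _ _ _) (wt_nonneg _ hε0 _ _ _)
  calc ∑ g : Fin (NV L mx) → Fin R, ε ^ xx L (ext (fun v => (g v : ℕ))) b0 b1 l0 l1
      ≤ ∑ g : Fin (NV L mx) → Fin R, h ((pathA g, pathB g), rest g) := by
        refine Finset.sum_le_sum fun g _ => ?_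
        simp only [h]
        rw [wt_eq, wt_eq, ← pow_add]
        refine pow_le_pow_of_le_one hε0 hε1 ?_
        have h1 := failA g b0 b1 l0 l1
        have h2 := failB g b0 b1 l0 l1
        unfold xx
        omega
    _ = ∑ x ∈ Finset.univ.image (fun g : Fin (NV L mx) → Fin R => ((pathA g, pathB g), rest g)),
          h x := by
        rw [Finset.sum_image (fun g _ g' _ hh => paths_inj hh)]
    _ ≤ ∑ x, h x := Finset.sum_le_sum_of_subset_of_nonneg (Finset.subset_univ _)
        (fun x _ _ => hnn x)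
    _ = (∑ x, wt (okA b0 b1 l0 l1) ε R (2 * L) x) * (∑ x, wt (okB b0 b1 l0 l1) ε R (2 * L) x) *
          R ^ (2 * (mx + 1)) := by
        rw [Fintype.sum_prod_type, Fintype.sum_prod_type]
        simp only [h]
        simp only [Finset.sum_const, Finset.card_univ, Fintype.card_fun, Fintype.card_fin,
          nsmul_eq_mul, Nat.cast_pow]
        rw [Finset.sum_mul_sum]
        simp only [Finset.sum_mul]
        refine Finset.sum_congr rfl fun x _ => Finset.sum_congr rfl fun y _ => ?_
        ring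
    _ ≤ _ := by
        have hA := path_sum (okA b0 b1 l0 l1) (okA_fun b0 b1 l0 l1) hε0 R (2 * L)
        have hB := path_sum (okB b0 b1 l0 l1) (okB_fun b0 b1 l0 l1) hε0 R (2 * L)
        have hA0 : 0 ≤ ∑ x, wt (okA b0 b1 l0 l1) ε R (2 * L) x :=
          Finset.sum_nonneg fun x _ => wt_nonneg _ hε0 _ _ _
        have hB0 : 0 ≤ ∑ x, wt (okB b0 b1 l0 l1) ε R (2 * L) x :=
          Finset.sum_nonneg fun x _ => wt_nonneg _ hε0 _ _ _
        gcongr

end

end Pool.Agent.H31.KG
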